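import Pool.Agent.Lib.MonoIP.Defs

/-!
# The symmetric approximation method

`A`: positive tests, `Z`: negative tests; monomials `M` and clauses `Cl` with their values on the
tests. Every gate is approximated by a DNF (a set of monomials) and a CNF (a set of clauses).
-/

namespace Pool.Agent.MonoIP

open Pool.Agent.AC0IP

theorem mono_of_computed {ι : Type} {S : ℕ} {f : BF ι} (hf : MonoComputed S f)
    {x y : ι → Bool} (h : ∀ i, x i = true → y i = true) (hx : f x = true) : f y = true := by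
  obtain ⟨lev, g, hg, hout⟩ := hf
  have hbit : ∀ f : BF ι, IsBit f → f x = true → f y = true := by
    rintro f (⟨c, hc⟩ | ⟨i, hi⟩) hfx
    · rw [hc] at hfx ⊢
      exact hfx
    · rw [hi] at hfx ⊢
      exact h i hfx
  have key : ∀ n : ℕ, ∀ a, lev a < n → g a x = true → g a y = true := by
    intro n
    induction n with
    | zero => intro a ha; omega
    | succ n ih =>
      intro a ha hax
      obtain ⟨A, hA, hor | hand⟩ := hg a
      · rw [hor] at hax ⊢
        obtain ⟨f, hf, hfx⟩ := hax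
        refine ⟨f, hf, ?_⟩
        rcases hA f hf with hb | ⟨b, hb, hfb⟩
        · exact hbit f hb hfx
        · rw [hfb] at hfx ⊢
          exact ih b (by omega) hfx
      · rw [hand] at hax ⊢
        intro f hf
        have hfx := hax f hf
        rcases hA f hf with hb | ⟨b, hb, hfb⟩
        · exact hbit f hb hfx
        · rw [hfb] at hfx ⊢
          exact ih b (by omega) hfx
  rcases hout with hb | ⟨a, ha⟩
  · exact hbit f hb hx
  · rw [ha] at hx ⊢
    exact key (lev a + 1) a (Nat.lt_succ_self _) hx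

section

variable {ι A Z M Cl : Type}

/-- the DNF `D` is below the CNF `C` on all tests -/
def Dom (mA : M → A → Prop) (mZ : M → Z → Prop) (cA : Cl → A → Prop) (cZ : Cl → Z → Prop)
    (D : Set M) (C : Set Cl) : Prop :=
  ∀ X ∈ D, ∀ c ∈ C, (∀ a, mA X a → cA c a) ∧ ∀ z, mZ X z → cZ c z

/-- `D`, `C` approximate `φ` outside the error sets -/
def Good (p : A → ι → Bool) (n : Z → ι → Bool)
    (mA : M → A → Prop) (mZ : M → Z → Prop) (cA : Cl → A → Prop) (cZ : Cl → Z → Prop)
    (φ : BF ι) (D : Set M) (C : Set Cl) (UP : Set A) (UN : Set Z) : Prop :=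
  Dom mA mZ cA cZ D C ∧ (∀ a, a ∉ UP → φ (p a) = true → ∃ X ∈ D, mA X a) ∧
    ∀ z, z ∉ UN → φ (n z) = false → ∃ c ∈ C, ¬ cZ c z

variable {p : A → ι → Bool} {n : Z → ι → Bool}
  {mA : M → A → Prop} {mZ : M → Z → Prop} {cA : Cl → A → Prop} {cZ : Cl → Z → Prop}

theorem Good.mono {φ : BF ι} {D : Set M} {C : Set Cl} {UP UP' : Set A} {UN UN' : Set Z}
    (h : Good p n mA mZ cA cZ φ D C UP UN) (h1 : UP ⊆ UP') (h2 : UN ⊆ UN') :
    Good p n mA mZ cA cZ φ D C UP' UN' :=
  ⟨h.1, fun a ha => h.2.1 a fun h' => ha (h1 h'), fun z hz => h.2.2 z fun h' => hz (h2 h')⟩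

theorem gate_step {εP εN : ℕ}
    (H1 : ∀ C : Set Cl, ∃ (D : Set M) (E : Finset A), E.card ≤ εP ∧ Dom mA mZ cA cZ D C ∧
      ∀ a, a ∉ E → (∀ c ∈ C, cA c a) → ∃ X ∈ D, mA X a)
    (H2 : ∀ D : Set M, ∃ (C : Set Cl) (E : Finset Z), E.card ≤ εN ∧ Dom mA mZ cA cZ D C ∧
      ∀ z, z ∉ E → (∀ X ∈ D, ¬ mZ X z) → ∃ c ∈ C, ¬ cZ c z)
    {UP : Set A} {UN : Set Z} {φ : BF ι} {B : Set (BF ι)}
    (hB : ∀ f ∈ B, ∃ D C, Good p n mA mZ cA cZ f D C UP UN)
    (h : (∀ x, φ x = true ↔ ∃ f ∈ B, f x = true) ∨ (∀ x, φ x = true ↔ ∀ f ∈ B, f x = true)) :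
    ∃ (E1 : Finset A) (E2 : Finset Z), E1.card ≤ εP ∧ E2.card ≤ εN ∧
      ∃ D C, Good p n mA mZ cA cZ φ D C (UP ∪ E1) (UN ∪ E2) := by
  choose! DD CC hG using hB
  rcases h with hor | hand
  · obtain ⟨C, E, hE, hdom, hC⟩ := H2 {X | ∃ f ∈ B, X ∈ DD f}
    refine ⟨∅, E, by simp, hE, {X | ∃ f ∈ B, X ∈ DD f}, C, hdom, ?_, ?_⟩
    · intro a ha hφ
      obtain ⟨f, hf, hfa⟩ := (hor _).1 hφ
      obtain ⟨X, hX, hXa⟩ := (hG f hf).2.1 a (fun h' => ha (Or.inl h')) hfa
      exact ⟨X, ⟨f, hf, hX⟩, hXa⟩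
    · intro z hz hφ
      refine hC z (fun h' => hz (Or.inr h')) ?_
      rintro X ⟨f, hf, hX⟩ hXz
      have hfz : f (n z) = false := by
        by_contra hne
        have h1 : f (n z) = true := by simpa using hne
        have h2 := (hor (n z)).2 ⟨f, hf, h1⟩
        rw [hφ] at h2
        exact absurd h2 (by decide)
      obtain ⟨c, hc, hcz⟩ := (hG f hf).2.2 z (fun h' => hz (Or.inl h')) hfz
      exact hcz (((hG f hf).1 X hX c hc).2 z hXz)
  · obtain ⟨D, E, hE, hdom, hD⟩ := H1 {c | ∃ f ∈ B, c ∈ CC f}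
    refine ⟨E, ∅, hE, by simp, D, {c | ∃ f ∈ B, c ∈ CC f}, hdom, ?_, ?_⟩
    · intro a ha hφ
      refine hD a (fun h' => ha (Or.inr h')) ?_
      rintro c ⟨f, hf, hc⟩
      have hfa := (hand _).1 hφ f hf
      obtain ⟨X, hX, hXa⟩ := (hG f hf).2.1 a (fun h' => ha (Or.inl h')) hfa
      exact ((hG f hf).1 X hX c hc).1 a hXa
    · intro z hz hφ
      have h1 : ∃ f ∈ B, f (n z) = false := by
        by_contra hne
        push Not at hne
        have h2 := (hand (n z)).2 (fun f hf => by simpa using hne f hf)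
        rw [hφ] at h2
        exact absurd h2 (by decide)
      obtain ⟨f, hf, hfz⟩ := h1
      obtain ⟨c, hc, hcz⟩ := (hG f hf).2.2 z (fun h' => hz (Or.inl h')) hfz
      exact ⟨c, ⟨f, hf, hc⟩, hcz⟩

open Classical in
theorem levels {εP εN : ℕ}
    (H0 : ∀ f : BF ι, IsBit f → ∃ D C, Good p n mA mZ cA cZ f D C ∅ ∅)
    (H1 : ∀ C : Set Cl, ∃ (D : Set M) (E : Finset A), E.card ≤ εP ∧ Dom mA mZ cA cZ D C ∧
      ∀ a, a ∉ E → (∀ c ∈ C, cA c a) → ∃ X ∈ D, mA X a)
    (H2 : ∀ D : Set M, ∃ (C : Set Cl) (E : Finset Z), E.card ≤ εN ∧ Dom mA mZ cA cZ D C ∧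
      ∀ z, z ∉ E → (∀ X ∈ D, ¬ mZ X z) → ∃ c ∈ C, ¬ cZ c z)
    {S : ℕ} (lev : Fin S → ℕ) (g : Fin S → BF ι) (hg : IsMonoCircuit lev g) (N : ℕ) :
    ∃ (EP : Fin S → Finset A) (EN : Fin S → Finset Z),
      (∀ a, (EP a).card ≤ εP ∧ (EN a).card ≤ εN) ∧ (∀ a, N ≤ lev a → EP a = ∅ ∧ EN a = ∅) ∧
      ∀ a, lev a < N → ∃ D C, Good p n mA mZ cA cZ (g a) D C {t | ∃ b, t ∈ EP b}
        {t | ∃ b, t ∈ EN b} := by
  induction N with
  | zero => exact ⟨fun _ => ∅, fun _ => ∅, by simp, by simp, fun a ha => by omega⟩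
  | succ N ih =>
    obtain ⟨EP, EN, hcard, hempty, hgood⟩ := ih
    have hstep : ∀ a, lev a = N → ∃ (E1 : Finset A) (E2 : Finset Z), E1.card ≤ εP ∧
        E2.card ≤ εN ∧ ∃ D C, Good p n mA mZ cA cZ (g a) D C ({t | ∃ b, t ∈ EP b} ∪ E1)
          ({t | ∃ b, t ∈ EN b} ∪ E2) := by
      intro a ha
      obtain ⟨B, hB, hB'⟩ := hg a
      refine gate_step H1 H2 ?_ hB'
      intro f hf
      rcases hB f hf with hb | ⟨b, hb, hfb⟩
      · obtain ⟨D, C, h⟩ := H0 f hb
        exact ⟨D, C, h.mono (Set.empty_subset _) (Set.empty_subset _)⟩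
      · obtain ⟨D, C, h⟩ := hgood b (by omega)
        have : f = g b := funext hfb
        rw [this]
        exact ⟨D, C, h⟩
    choose! F1 F2 hF1 hF2 hF3 using hstep
    have s1 : ∀ a, lev a = N → ({t | ∃ b, t ∈ EP b} : Set A) ∪ ↑(F1 a) ⊆
        {t | ∃ b, t ∈ if lev b = N then F1 b else EP b} := by
      intro a ha t ht
      rcases ht with ⟨b, hb⟩ | hb
      · refine ⟨b, ?_⟩
        split_ifs with h
        · rw [(hempty b h.ge).1] at hb
          exact absurd hb (Finset.notMem_empty _)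
        · exact hb
      · refine ⟨a, ?_⟩
        rw [if_pos ha]
        exact hb
    have s2 : ∀ a, lev a = N → ({t | ∃ b, t ∈ EN b} : Set Z) ∪ ↑(F2 a) ⊆
        {t | ∃ b, t ∈ if lev b = N then F2 b else EN b} := by
      intro a ha t ht
      rcases ht with ⟨b, hb⟩ | hb
      · refine ⟨b, ?_⟩
        split_ifs with h
        · rw [(hempty b h.ge).2] at hb
          exact absurd hb (Finset.notMem_empty _)
        · exact hb
      · refine ⟨a, ?_⟩
        rw [if_pos ha]
        exact hb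
    refine ⟨fun a => if lev a = N then F1 a else EP a, fun a => if lev a = N then F2 a else EN a,
      ?_, ?_, ?_⟩
    · intro a
      constructor
      · show (if lev a = N then F1 a else EP a).card ≤ εP
        split_ifs with h
        · exact hF1 a h
        · exact (hcard a).1
      · show (if lev a = N then F2 a else EN a).card ≤ εN
        split_ifs with h
        · exact hF2 a h
        · exact (hcard a).2
    · intro a ha
      have h : ¬ lev a = N := by omega
      simp only [if_neg h]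
      exact hempty a (by omega)
    · intro a ha
      by_cases h : lev a = N
      · obtain ⟨D, C, hDC⟩ := hF3 a h
        exact ⟨D, C, hDC.mono (s1 a h) (s2 a h)⟩
      · obtain ⟨D, C, hDC⟩ := hgood a (by omega)
        refine ⟨D, C, hDC.mono ?_ ?_⟩
        · rintro t ⟨b, hb⟩
          refine ⟨b, ?_⟩
          show t ∈ if lev b = N then F1 b else EP b
          split_ifs with h'
          · rw [(hempty b h'.ge).1] at hb
            exact absurd hb (Finset.notMem_empty _)
          · exact hb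
        · rintro t ⟨b, hb⟩
          refine ⟨b, ?_⟩
          show t ∈ if lev b = N then F2 b else EN b
          split_ifs with h'
          · rw [(hempty b h'.ge).2] at hb
            exact absurd hb (Finset.notMem_empty _)
          · exact hb

open Classical in
theorem approx [Fintype A] [Fintype Z] {εP εN : ℕ}
    (H0 : ∀ f : BF ι, IsBit f → ∃ D C, Good p n mA mZ cA cZ f D C ∅ ∅)
    (H1 : ∀ C : Set Cl, ∃ (D : Set M) (E : Finset A), E.card ≤ εP ∧ Dom mA mZ cA cZ D C ∧
      ∀ a, a ∉ E → (∀ c ∈ C, cA c a) → ∃ X ∈ D, mA X a)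
    (H2 : ∀ D : Set M, ∃ (C : Set Cl) (E : Finset Z), E.card ≤ εN ∧ Dom mA mZ cA cZ D C ∧
      ∀ z, z ∉ E → (∀ X ∈ D, ¬ mZ X z) → ∃ c ∈ C, ¬ cZ c z)
    {S : ℕ} {f : BF ι} (hf : MonoComputed S f) :
    (Finset.univ.filter (fun a => f (p a) = true)).card ≤ S * εP ∨
    ∃ X : M, (Finset.univ.filter (fun z => f (n z) = false)).card ≤
      (Finset.univ.filter (fun z => ¬ mZ X z)).card + S * εN := by
  obtain ⟨lev, g, hg, hout⟩ := hf
  have key : ∃ (EP : Fin S → Finset A) (EN : Fin S → Finset Z),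
      (∀ a, (EP a).card ≤ εP ∧ (EN a).card ≤ εN) ∧ ∃ D C,
      Good p n mA mZ cA cZ f D C {t | ∃ b, t ∈ EP b} {t | ∃ b, t ∈ EN b} := by
    rcases hout with hb | ⟨a, ha⟩
    · obtain ⟨D, C, h⟩ := H0 f hb
      exact ⟨fun _ => ∅, fun _ => ∅, by simp, D, C,
        h.mono (Set.empty_subset _) (Set.empty_subset _)⟩
    · obtain ⟨EP, EN, h1, -, h2⟩ := levels H0 H1 H2 lev g hg (lev a + 1)
      obtain ⟨D, C, h⟩ := h2 a (Nat.lt_succ_self _)
      have : f = g a := funext ha
      rw [this]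
      exact ⟨EP, EN, h1, D, C, h⟩
  obtain ⟨EP, EN, hcard, D, C, hdom, hP, hN⟩ := key
  by_cases hD : ∃ X, X ∈ D
  · right
    obtain ⟨X, hX⟩ := hD
    refine ⟨X, ?_⟩
    have hsub : Finset.univ.filter (fun z => f (n z) = false) ⊆
        Finset.univ.filter (fun z => ¬ mZ X z) ∪ Finset.univ.biUnion EN := by
      intro z hz
      rw [Finset.mem_filter] at hz
      rw [Finset.mem_union, Finset.mem_filter, Finset.mem_biUnion]
      by_cases hzE : ∃ b, z ∈ EN b
      · obtain ⟨b, hb⟩ := hzE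
        exact Or.inr ⟨b, Finset.mem_univ _, hb⟩
      · left
        refine ⟨Finset.mem_univ _, fun hXz => ?_⟩
        obtain ⟨c, hc, hcz⟩ := hN z hzE hz.2
        exact hcz ((hdom X hX c hc).2 z hXz)
    refine (Finset.card_le_card hsub).trans ((Finset.card_union_le _ _).trans ?_)
    refine Nat.add_le_add_left ?_ _
    refine Finset.card_biUnion_le.trans ?_
    calc ∑ b : Fin S, (EN b).card ≤ ∑ _b : Fin S, εN :=
          Finset.sum_le_sum fun b _ => (hcard b).2
      _ = S * εN := by rw [Finset.sum_const, Finset.card_univ, Fintype.card_fin, smul_eq_mul]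
  · left
    have hsub : Finset.univ.filter (fun a => f (p a) = true) ⊆ Finset.univ.biUnion EP := by
      intro a ha
      rw [Finset.mem_filter] at ha
      rw [Finset.mem_biUnion]
      by_contra hne
      have h1 : a ∉ {t | ∃ b, t ∈ EP b} := by
        rintro ⟨b, hb⟩
        exact hne ⟨b, Finset.mem_univ _, hb⟩
      obtain ⟨X, hX, -⟩ := hP a h1 ha.2
      exact hD ⟨X, hX⟩
    refine (Finset.card_le_card hsub).trans (Finset.card_biUnion_le.trans ?_)
    calc ∑ b : Fin S, (EP b).card ≤ ∑ _b : Fin S, εP :=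
          Finset.sum_le_sum fun b _ => (hcard b).1
      _ = S * εP := by rw [Finset.sum_const, Finset.card_univ, Fintype.card_fin, smul_eq_mul]

end

end Pool.Agent.MonoIP
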