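import Pool.Agent.Lib.MonoIP.Approx

/-!
# Cliques and colourings: conversions between DNFs and CNFs

`W = Fin m × Fin w`; positive tests `a : Fin m → Fin w` (the clique on its graph), negative tests
`z : W → Fin K` (the complete multipartite graph of the colouring `z`). Monomials: sets `X` of
vertices (all pairs are edges). Clauses: maps `ρ : W → W` (some pair in the same class of `ρ` is an
edge).
-/

namespace Pool.Agent.MonoIP

open Finset

/-! ### Maps with small rank -/

section rank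

variable {W : Type} [Fintype W] [DecidableEq W]

/-- the rank defect -/
def rk (ρ : W → W) : ℕ := Fintype.card W - (univ.image ρ).card

theorem rk_add (ρ : W → W) : rk ρ + (univ.image ρ).card = Fintype.card W := by
  unfold rk
  have : (univ.image ρ).card ≤ Fintype.card W := card_le_univ _
  omega

/-- the elements with a nontrivial class -/
def nt (ρ : W → W) : Finset W := univ.filter (fun u => ∃ u', u ≠ u' ∧ ρ u = ρ u')

theorem mem_nt {ρ : W → W} {u : W} : u ∈ nt ρ ↔ ∃ u', u ≠ u' ∧ ρ u = ρ u' := by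
  simp [nt]

theorem nt_card (ρ : W → W) : (nt ρ).card ≤ 2 * rk ρ := by
  have e1 : (nt ρ).card = ∑ y ∈ univ.image ρ, ((nt ρ).filter (fun u => ρ u = y)).card :=
    card_eq_sum_card_fiberwise fun u _ => by simp
  have e2 : Fintype.card W = ∑ y ∈ univ.image ρ, (univ.filter (fun u => ρ u = y)).card := by
    rw [← card_univ]
    exact card_eq_sum_card_fiberwise fun u _ => by simp
  have e3 : (nt ρ).card + 2 * (univ.image ρ).card ≤ 2 * Fintype.card W := by
    rw [e1, e2, mul_sum, card_eq_sum_ones (univ.image ρ), mul_sum, ← sum_add_distrib]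
    refine sum_le_sum fun y hy => ?_
    obtain ⟨u, -, rfl⟩ := mem_image.1 hy
    by_cases h : ∃ u', u' ≠ u ∧ ρ u' = ρ u
    · obtain ⟨u', h1, h2⟩ := h
      have h3 : ((nt ρ).filter (fun v => ρ v = ρ u)).card ≤
          (univ.filter (fun v => ρ v = ρ u)).card :=
        card_le_card (filter_subset_filter _ (subset_univ _))
      have h4 : ({u', u} : Finset W).card ≤ (univ.filter (fun v => ρ v = ρ u)).card := by
        refine card_le_card fun v hv => ?_
        rw [mem_insert, mem_singleton] at hv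
        rcases hv with rfl | rfl
        · simp [h2]
        · simp
      rw [card_pair h1] at h4
      omega
    · have h3 : ((nt ρ).filter (fun v => ρ v = ρ u)) = ∅ := by
        rw [filter_eq_empty_iff]
        intro v hv hvu
        rw [mem_nt] at hv
        obtain ⟨u', h5, h6⟩ := hv
        by_cases h7 : v = u
        · subst h7
          exact h ⟨u', h5.symm, h6.symm⟩
        · exact h ⟨v, h7, hvu⟩
      have h4 : 1 ≤ (univ.filter (fun v => ρ v = ρ u)).card :=
        card_pos.2 ⟨u, by simp⟩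
      rw [h3, card_empty]
      omega
  have := rk_add ρ
  omega

/-- identify the values `ρ u` and `ρ u'` -/
def mrg (ρ : W → W) (u u' : W) : W → W := fun x => if ρ x = ρ u then ρ u' else ρ x

theorem rk_mrg (ρ : W → W) (u u' : W) (h : ρ u ≠ ρ u') : rk ρ + 1 ≤ rk (mrg ρ u u') := by
  have h1 : univ.image (mrg ρ u u') ⊆ (univ.image ρ).erase (ρ u) := by
    intro y hy
    obtain ⟨x, -, rfl⟩ := mem_image.1 hy
    rw [mem_erase]
    unfold mrg
    split_ifs with hx
    · exact ⟨fun h' => h h'.symm, by simp⟩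
    · exact ⟨hx, by simp⟩
  have h2 := card_le_card h1
  rw [card_erase_of_mem (by simp)] at h2
  have h3 : 1 ≤ (univ.image ρ).card := card_pos.2 ⟨ρ u, by simp⟩
  have h4 := rk_add ρ
  have h5 := rk_add (mrg ρ u u')
  omega

theorem rk_id : rk (id : W → W) = 0 := by
  unfold rk
  rw [image_id, card_univ, Nat.sub_self]

theorem rk_mrg_id (u u' : W) : rk (mrg id u u') ≤ 1 := by
  have h1 : (univ : Finset W).erase u ⊆ univ.image (mrg id u u') := by
    intro y hy
    rw [mem_erase] at hy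
    rw [mem_image]
    refine ⟨y, mem_univ _, ?_⟩
    unfold mrg
    rw [if_neg]
    · rfl
    · exact hy.1
  have h2 := card_le_card h1
  rw [card_erase_of_mem (mem_univ _), card_univ] at h2
  unfold rk
  omega

variable {K : ℕ}

theorem resp_card (ρ : W → W) :
    (univ.filter (fun z : W → Fin K => ∀ x y, ρ x = ρ y → z x = z y)).card ≤
      K ^ (univ.image ρ).card := by
  classical
  have hsec : ∀ y : {y // y ∈ univ.image ρ}, ∃ x, ρ x = y := by
    rintro ⟨y, hy⟩
    obtain ⟨x, -, hx⟩ := mem_image.1 hy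
    exact ⟨x, hx⟩
  choose sec hsec using hsec
  have h1 : (univ.filter (fun z : W → Fin K => ∀ x y, ρ x = ρ y → z x = z y)).card ≤
      (univ : Finset ({y // y ∈ univ.image ρ} → Fin K)).card := by
    refine card_le_card_of_injOn (fun z y => z (sec y)) (fun _ _ => mem_coe.2 (mem_univ _)) ?_
    intro z hz z' hz' h
    rw [mem_coe, mem_filter] at hz hz'
    funext x
    have h2 := congrFun h ⟨ρ x, by simp⟩
    have h3 := hsec ⟨ρ x, by simp⟩
    rw [hz.2 x (sec ⟨ρ x, by simp⟩) h3.symm, hz'.2 x (sec ⟨ρ x, by simp⟩) h3.symm]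
    exact h2
  refine h1.trans ?_
  rw [card_univ, Fintype.card_fun, Fintype.card_fin, Fintype.card_coe]

end rank

/-! ### CNF to DNF: branching over pairs of a class -/

section pos

variable {m w : ℕ}

/-- the monomial `X` is true on the clique `a` -/
def mA (X : Finset (Fin m × Fin w)) (a : Fin m → Fin w) : Prop := ∀ u ∈ X, a u.1 = u.2

/-- the clause `ρ` is true on the clique `a` -/
def cA (ρ : Fin m × Fin w → Fin m × Fin w) (a : Fin m → Fin w) : Prop :=
  ∃ u u', u ≠ u' ∧ ρ u = ρ u' ∧ a u.1 = u.2 ∧ a u'.1 = u'.2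

/-- the monomial is below the clause -/
def Le {W : Type} (X : Finset W) (ρ : W → W) : Prop := ∃ u ∈ X, ∃ u' ∈ X, u ≠ u' ∧ ρ u = ρ u'

open Classical in
theorem mA_card (X : Finset (Fin m × Fin w)) :
    (univ.filter (fun a : Fin m → Fin w => mA X a)).card ≤ w ^ (m - X.card) := by
  rcases (univ.filter (fun a : Fin m → Fin w => mA X a)).eq_empty_or_nonempty with h | ⟨a₀, ha₀⟩
  · rw [h, card_empty]
    exact Nat.zero_le _
  rw [mem_filter] at ha₀
  have hJ : (X.image Prod.fst).card = X.card := by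
    refine card_image_of_injOn ?_
    intro u hu u' hu' h
    refine Prod.ext h ?_
    rw [← ha₀.2 u hu, ← ha₀.2 u' hu', h]
  have h1 : (univ.filter (fun a : Fin m → Fin w => mA X a)).card ≤
      (univ : Finset ({i // i ∉ X.image Prod.fst} → Fin w)).card := by
    refine card_le_card_of_injOn (fun a i => a i.1) (fun _ _ => mem_coe.2 (mem_univ _)) ?_
    intro a ha a' ha' h
    rw [mem_coe, mem_filter] at ha ha'
    funext i
    by_cases hi : i ∈ X.image Prod.fst
    · obtain ⟨u, hu, rfl⟩ := mem_image.1 hi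
      rw [ha.2 u hu, ha'.2 u hu]
    · exact congrFun h ⟨i, hi⟩
  refine h1.trans ?_
  rw [card_univ, Fintype.card_fun, Fintype.card_fin, Fintype.card_subtype_compl,
    Fintype.card_fin, Fintype.card_coe, hJ]

open Classical in
theorem branchP {r s : ℕ} (hs : 1 ≤ s) (hw : 2 * s ≤ w) (hrm : r + 1 ≤ m)
    (C : Set (Fin m × Fin w → Fin m × Fin w)) (hC : ∀ ρ ∈ C, rk ρ ≤ s) (t : ℕ) :
    ∀ X : Finset (Fin m × Fin w), r ≤ X.card + t →
      (univ.filter (fun a : Fin m → Fin w => mA X a ∧ (∀ ρ ∈ C, cA ρ a) ∧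
        ¬ ∃ Y : Finset (Fin m × Fin w), Y.card < r ∧ (∀ ρ ∈ C, Le Y ρ) ∧ mA Y a)).card ≤
      (4 * s) ^ t * w ^ (m - r) := by
  have hw1 : 1 ≤ w := by omega
  have sub : ∀ X : Finset (Fin m × Fin w),
      (univ.filter (fun a : Fin m → Fin w => mA X a ∧ (∀ ρ ∈ C, cA ρ a) ∧
        ¬ ∃ Y : Finset (Fin m × Fin w), Y.card < r ∧ (∀ ρ ∈ C, Le Y ρ) ∧ mA Y a)).card ≤
      w ^ (m - X.card) := fun X =>
    (card_le_card fun a ha => by
      rw [mem_filter] at ha ⊢
      exact ⟨ha.1, ha.2.1⟩).trans (mA_card X)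
  have base : ∀ (X : Finset (Fin m × Fin w)) (t : ℕ), r ≤ X.card →
      (univ.filter (fun a : Fin m → Fin w => mA X a ∧ (∀ ρ ∈ C, cA ρ a) ∧
        ¬ ∃ Y : Finset (Fin m × Fin w), Y.card < r ∧ (∀ ρ ∈ C, Le Y ρ) ∧ mA Y a)).card ≤
      (4 * s) ^ t * w ^ (m - r) := by
    intro X t hX
    calc _ ≤ w ^ (m - X.card) := sub X
      _ ≤ w ^ (m - r) := Nat.pow_le_pow_right hw1 (by omega)
      _ = 1 * w ^ (m - r) := (one_mul _).symm
      _ ≤ (4 * s) ^ t * w ^ (m - r) :=
          Nat.mul_le_mul_right _ (Nat.one_le_pow _ _ (by omega))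
  induction t using Nat.strong_induction_on with
  | _ t ih =>
    intro X hX
    by_cases hr : r ≤ X.card
    · exact base X t hr
    by_cases hall : ∀ ρ ∈ C, Le X ρ
    · rw [filter_eq_empty_iff.2, card_empty]
      · exact Nat.zero_le _
      · rintro a - ⟨h1, -, h3⟩
        exact h3 ⟨X, by omega, hall, h1⟩
    push Not at hall
    obtain ⟨ρ, hρ, hXρ⟩ := hall
    obtain ⟨t', rfl⟩ : ∃ t', t = t' + 1 := ⟨t - 1, by omega⟩
    set T := nt ρ \ X with hT
    have hTc : T.card ≤ 2 * s := by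
      refine (card_le_card sdiff_subset).trans ((nt_card ρ).trans ?_)
      have := hC ρ hρ
      omega
    set Pr := (T ×ˢ T).filter (fun e => e.1 ≠ e.2) with hPr
    have hPc : Pr.card ≤ (2 * s) * (2 * s) := by
      refine (card_filter_le _ _).trans ?_
      rw [card_product]
      exact Nat.mul_le_mul hTc hTc
    have hsub : univ.filter (fun a : Fin m → Fin w => mA X a ∧ (∀ ρ ∈ C, cA ρ a) ∧
        ¬ ∃ Y : Finset (Fin m × Fin w), Y.card < r ∧ (∀ ρ ∈ C, Le Y ρ) ∧ mA Y a) ⊆
        (T.biUnion (fun u => univ.filter (fun a : Fin m → Fin w =>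
          mA (insert u X) a ∧ (∀ ρ ∈ C, cA ρ a) ∧
        ¬ ∃ Y : Finset (Fin m × Fin w), Y.card < r ∧ (∀ ρ ∈ C, Le Y ρ) ∧ mA Y a))) ∪
        (Pr.biUnion (fun e => univ.filter (fun a : Fin m → Fin w =>
          mA (insert e.1 (insert e.2 X)) a ∧ (∀ ρ ∈ C, cA ρ a) ∧
        ¬ ∃ Y : Finset (Fin m × Fin w), Y.card < r ∧ (∀ ρ ∈ C, Le Y ρ) ∧ mA Y a))) := by
      intro a ha
      rw [mem_filter] at ha
      obtain ⟨-, h1, h2, h3⟩ := ha
      obtain ⟨u, u', k1, k2, k3, k4⟩ := h2 ρ hρ
      have n1 : u ∈ nt ρ := mem_nt.2 ⟨u', k1, k2⟩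
      have n2 : u' ∈ nt ρ := mem_nt.2 ⟨u, k1.symm, k2.symm⟩
      rw [mem_union, mem_biUnion, mem_biUnion]
      by_cases c1 : u ∈ X
      · left
        have c2 : u' ∉ X := fun c2 => hXρ ⟨u, c1, u', c2, k1, k2⟩
        refine ⟨u', mem_sdiff.2 ⟨n2, c2⟩, ?_⟩
        rw [mem_filter]
        refine ⟨mem_univ _, ?_, h2, h3⟩
        intro v hv
        rw [mem_insert] at hv
        rcases hv with rfl | hv
        · exact k4
        · exact h1 v hv
      · by_cases c2 : u' ∈ X
        · left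
          refine ⟨u, mem_sdiff.2 ⟨n1, c1⟩, ?_⟩
          rw [mem_filter]
          refine ⟨mem_univ _, ?_, h2, h3⟩
          intro v hv
          rw [mem_insert] at hv
          rcases hv with rfl | hv
          · exact k3
          · exact h1 v hv
        · right
          refine ⟨(u, u'), ?_, ?_⟩
          · rw [hPr, mem_filter, mem_product]
            exact ⟨⟨mem_sdiff.2 ⟨n1, c1⟩, mem_sdiff.2 ⟨n2, c2⟩⟩, k1⟩
          · rw [mem_filter]
            refine ⟨mem_univ _, ?_, h2, h3⟩
            intro v hv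
            rw [mem_insert, mem_insert] at hv
            rcases hv with rfl | rfl | hv
            · exact k3
            · exact k4
            · exact h1 v hv
    refine (card_le_card hsub).trans ((card_union_le _ _).trans ?_)
    have b1 : (T.biUnion (fun u => univ.filter (fun a : Fin m → Fin w =>
          mA (insert u X) a ∧ (∀ ρ ∈ C, cA ρ a) ∧
        ¬ ∃ Y : Finset (Fin m × Fin w), Y.card < r ∧ (∀ ρ ∈ C, Le Y ρ) ∧ mA Y a))).card ≤
        2 * s * ((4 * s) ^ t' * w ^ (m - r)) := by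
      refine card_biUnion_le.trans ?_
      calc _ ≤ ∑ _u ∈ T, (4 * s) ^ t' * w ^ (m - r) := by
            refine sum_le_sum fun u hu => ih t' (Nat.lt_succ_self _) (insert u X) ?_
            rw [card_insert_of_notMem (mem_sdiff.1 hu).2]
            omega
        _ = T.card * ((4 * s) ^ t' * w ^ (m - r)) := by rw [sum_const, smul_eq_mul]
        _ ≤ _ := Nat.mul_le_mul_right _ hTc
    have hcard2 : ∀ e ∈ Pr, (insert e.1 (insert e.2 X)).card = X.card + 2 := by
      intro e he
      rw [hPr, mem_filter, mem_product] at he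
      rw [card_insert_of_notMem, card_insert_of_notMem (mem_sdiff.1 he.1.2).2]
      rw [mem_insert]
      rintro (h | h)
      · exact he.2 h
      · exact (mem_sdiff.1 he.1.1).2 h
    have b2 : (Pr.biUnion (fun e => univ.filter (fun a : Fin m → Fin w =>
          mA (insert e.1 (insert e.2 X)) a ∧ (∀ ρ ∈ C, cA ρ a) ∧
        ¬ ∃ Y : Finset (Fin m × Fin w), Y.card < r ∧ (∀ ρ ∈ C, Le Y ρ) ∧ mA Y a))).card ≤
        2 * s * ((4 * s) ^ t' * w ^ (m - r)) := by
      refine card_biUnion_le.trans ?_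
      rcases Nat.eq_zero_or_pos t' with h0 | h0
      · subst h0
        have hXr : X.card + 2 = r + 1 := by omega
        calc _ ≤ ∑ _e ∈ Pr, w ^ (m - (r + 1)) := by
              refine sum_le_sum fun e he => (sub _).trans ?_
              rw [hcard2 e he, hXr]
          _ = Pr.card * w ^ (m - (r + 1)) := by rw [sum_const, smul_eq_mul]
          _ ≤ (2 * s) * (2 * s) * w ^ (m - (r + 1)) := Nat.mul_le_mul_right _ hPc
          _ = 2 * s * (2 * s * w ^ (m - (r + 1))) := by ring
          _ ≤ 2 * s * (w * w ^ (m - (r + 1))) :=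
              Nat.mul_le_mul_left _ (Nat.mul_le_mul_right _ hw)
          _ = 2 * s * ((4 * s) ^ 0 * w ^ (m - r)) := by
              rw [pow_zero, one_mul, ← pow_succ']
              congr 2
              omega
      · obtain ⟨t'', rfl⟩ : ∃ t'', t' = t'' + 1 := ⟨t' - 1, by omega⟩
        calc _ ≤ ∑ _e ∈ Pr, (4 * s) ^ t'' * w ^ (m - r) := by
              refine sum_le_sum fun e he => ih t'' (by omega) _ ?_
              rw [hcard2 e he]
              omega
          _ = Pr.card * ((4 * s) ^ t'' * w ^ (m - r)) := by rw [sum_const, smul_eq_mul]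
          _ ≤ (2 * s) * (2 * s) * ((4 * s) ^ t'' * w ^ (m - r)) :=
              Nat.mul_le_mul_right _ hPc
          _ ≤ (2 * s) * (4 * s) * ((4 * s) ^ t'' * w ^ (m - r)) :=
              Nat.mul_le_mul_right _ (Nat.mul_le_mul_left _ (by omega))
          _ = 2 * s * ((4 * s) ^ (t'' + 1) * w ^ (m - r)) := by ring
    calc _ ≤ 2 * s * ((4 * s) ^ t' * w ^ (m - r)) + 2 * s * ((4 * s) ^ t' * w ^ (m - r)) :=
          Nat.add_le_add b1 b2
      _ = (4 * s) ^ (t' + 1) * w ^ (m - r) := by ring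

/-- conversion of a CNF -/
theorem convP {r s : ℕ} (hs : 1 ≤ s) (hw : 2 * s ≤ w) (hrm : r + 1 ≤ m)
    (C : Set (Fin m × Fin w → Fin m × Fin w)) (hC : ∀ ρ ∈ C, rk ρ ≤ s) :
    ∃ E : Finset (Fin m → Fin w), E.card ≤ (4 * s) ^ r * w ^ (m - r) ∧
      ∀ a, a ∉ E → (∀ ρ ∈ C, cA ρ a) →
        ∃ Y : Finset (Fin m × Fin w), Y.card < r ∧ (∀ ρ ∈ C, Le Y ρ) ∧ mA Y a := by
  classical
  refine ⟨_, branchP (r := r) hs hw hrm C hC r ∅ (by omega), ?_⟩
  intro a ha h
  by_contra hne
  apply ha
  rw [mem_filter]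
  exact ⟨mem_univ _, fun u hu => absurd hu (notMem_empty _), h, hne⟩

end pos

/-! ### DNF to CNF: branching over pairs of a monomial -/

section neg

variable {W : Type} [Fintype W] [DecidableEq W] {K : ℕ}

/-- the monomial `X` is true on the multipartite graph `z` -/
def mZ (X : Finset W) (z : W → Fin K) : Prop := ∀ u ∈ X, ∀ u' ∈ X, u ≠ u' → z u ≠ z u'

/-- the clause `ρ` is true on the multipartite graph `z` -/
def cZ (ρ : W → W) (z : W → Fin K) : Prop := ¬ ∀ x y, ρ x = ρ y → z x = z y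

open Classical in
theorem branchN {s Q : ℕ} (hK : 1 ≤ K) (hQ : 1 ≤ Q) (D : Set (Finset W))
    (hD : ∀ X ∈ D, X.card ^ 2 ≤ Q) (t : ℕ) :
    ∀ ρ : W → W, s ≤ rk ρ + t →
      (univ.filter (fun z : W → Fin K => ¬ cZ ρ z ∧ (∀ X ∈ D, ¬ mZ X z) ∧
        ¬ ∃ σ : W → W, rk σ < s ∧ (∀ X ∈ D, Le X σ) ∧ ¬ cZ σ z)).card ≤
      Q ^ t * K ^ (Fintype.card W - s) := by
  have base : ∀ (ρ : W → W) (t : ℕ), s ≤ rk ρ →
      (univ.filter (fun z : W → Fin K => ¬ cZ ρ z ∧ (∀ X ∈ D, ¬ mZ X z) ∧
        ¬ ∃ σ : W → W, rk σ < s ∧ (∀ X ∈ D, Le X σ) ∧ ¬ cZ σ z)).card ≤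
      Q ^ t * K ^ (Fintype.card W - s) := by
    intro ρ t hρ
    calc _ ≤ (univ.filter (fun z : W → Fin K => ∀ x y, ρ x = ρ y → z x = z y)).card :=
          card_le_card fun z hz => by
            rw [mem_filter] at hz ⊢
            exact ⟨hz.1, not_not.1 hz.2.1⟩
      _ ≤ K ^ (univ.image ρ).card := resp_card ρ
      _ ≤ K ^ (Fintype.card W - s) := Nat.pow_le_pow_right hK (by have := rk_add ρ; omega)
      _ = 1 * K ^ (Fintype.card W - s) := (one_mul _).symm
      _ ≤ Q ^ t * K ^ (Fintype.card W - s) := Nat.mul_le_mul_right _ (Nat.one_le_pow _ _ hQ)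
  induction t with
  | zero => exact fun ρ hρ => base ρ 0 hρ
  | succ t ih =>
    intro ρ hρ
    by_cases hr : s ≤ rk ρ
    · exact base ρ (t + 1) hr
    by_cases hall : ∀ X ∈ D, Le X ρ
    · rw [filter_eq_empty_iff.2, card_empty]
      · exact Nat.zero_le _
      · rintro z - ⟨h1, -, h3⟩
        exact h3 ⟨ρ, by omega, hall, h1⟩
    push Not at hall
    obtain ⟨X, hX, hXρ⟩ := hall
    set Pr := (X ×ˢ X).filter (fun e => e.1 ≠ e.2) with hPr
    have hsub : univ.filter (fun z : W → Fin K => ¬ cZ ρ z ∧ (∀ X ∈ D, ¬ mZ X z) ∧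
        ¬ ∃ σ : W → W, rk σ < s ∧ (∀ X ∈ D, Le X σ) ∧ ¬ cZ σ z) ⊆
        Pr.biUnion (fun e => univ.filter (fun z : W → Fin K =>
          ¬ cZ (mrg ρ e.1 e.2) z ∧ (∀ X ∈ D, ¬ mZ X z) ∧
          ¬ ∃ σ : W → W, rk σ < s ∧ (∀ X ∈ D, Le X σ) ∧ ¬ cZ σ z)) := by
      intro z hz
      rw [mem_filter] at hz
      obtain ⟨-, h1, h2, h3⟩ := hz
      have h4 := h2 X hX
      unfold mZ at h4
      push Not at h4
      obtain ⟨u, hu, u', hu', k1, k2⟩ := h4
      rw [mem_biUnion]
      refine ⟨(u, u'), ?_, ?_⟩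
      · rw [hPr, mem_filter, mem_product]
        exact ⟨⟨hu, hu'⟩, k1⟩
      · rw [mem_filter]
        refine ⟨mem_univ _, ?_, h2, h3⟩
        have h5 : ∀ x y, ρ x = ρ y → z x = z y := not_not.1 h1
        intro hc
        apply hc
        intro x y hxy
        unfold mrg at hxy
        simp only at hxy
        split_ifs at hxy with c1 c2 c2
        · exact h5 x y (c1.trans c2.symm)
        · rw [h5 x u c1, k2]
          exact h5 u' y hxy
        · rw [h5 y u c2, k2]
          exact h5 x u' hxy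
        · exact h5 x y hxy
    refine (card_le_card hsub).trans (card_biUnion_le.trans ?_)
    calc _ ≤ ∑ _e ∈ Pr, Q ^ t * K ^ (Fintype.card W - s) := by
          refine sum_le_sum fun e he => ?_
          rw [hPr, mem_filter, mem_product] at he
          refine ih (mrg ρ e.1 e.2) ?_
          have h1 : ρ e.1 ≠ ρ e.2 := fun h => hXρ ⟨e.1, he.1.1, e.2, he.1.2, he.2, h⟩
          have h2 := rk_mrg ρ e.1 e.2 h1
          omega
      _ = Pr.card * (Q ^ t * K ^ (Fintype.card W - s)) := by rw [sum_const, smul_eq_mul]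
      _ ≤ Q * (Q ^ t * K ^ (Fintype.card W - s)) := by
          refine Nat.mul_le_mul_right _ ?_
          calc Pr.card ≤ (X ×ˢ X).card := card_filter_le _ _
            _ = X.card ^ 2 := by rw [card_product, sq]
            _ ≤ Q := hD X hX
      _ = Q ^ (t + 1) * K ^ (Fintype.card W - s) := by ring

/-- conversion of a DNF -/
theorem convN {s Q : ℕ} (hK : 1 ≤ K) (hQ : 1 ≤ Q) (D : Set (Finset W))
    (hD : ∀ X ∈ D, X.card ^ 2 ≤ Q) :
    ∃ E : Finset (W → Fin K), E.card ≤ Q ^ s * K ^ (Fintype.card W - s) ∧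
      ∀ z, z ∉ E → (∀ X ∈ D, ¬ mZ X z) →
        ∃ σ : W → W, rk σ < s ∧ (∀ X ∈ D, Le X σ) ∧ ¬ cZ σ z := by
  classical
  refine ⟨_, branchN (s := s) hK hQ D hD s id (by omega), ?_⟩
  intro z hz h
  by_contra hne
  apply hz
  rw [mem_filter]
  refine ⟨mem_univ _, fun hc => hc fun x y hxy => ?_, h, hne⟩
  rw [show x = y from hxy]

open Classical in
theorem notInj_card (X : Finset W) (hK : 1 ≤ K) :
    (univ.filter (fun z : W → Fin K => ¬ mZ X z)).card ≤
      X.card ^ 2 * K ^ (Fintype.card W - 1) := by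
  set Pr := (X ×ˢ X).filter (fun e => e.1 ≠ e.2) with hPr
  have hsub : univ.filter (fun z : W → Fin K => ¬ mZ X z) ⊆
      Pr.biUnion (fun e => univ.filter (fun z : W → Fin K => ∀ x y,
        mrg id e.1 e.2 x = mrg id e.1 e.2 y → z x = z y)) := by
    intro z hz
    rw [mem_filter] at hz
    have h4 := hz.2
    unfold mZ at h4
    push Not at h4
    obtain ⟨u, hu, u', hu', k1, k2⟩ := h4
    rw [mem_biUnion]
    refine ⟨(u, u'), ?_, ?_⟩
    · rw [hPr, mem_filter, mem_product]
      exact ⟨⟨hu, hu'⟩, k1⟩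
    · rw [mem_filter]
      refine ⟨mem_univ _, ?_⟩
      intro x y hxy
      unfold mrg at hxy
      simp only [id] at hxy
      split_ifs at hxy with c1 c2 c2
      · rw [c1, c2]
      · rw [c1, k2, hxy]
      · rw [c2, k2, hxy]
      · rw [hxy]
  refine (card_le_card hsub).trans (card_biUnion_le.trans ?_)
  calc _ ≤ ∑ _e ∈ Pr, K ^ (Fintype.card W - 1) := by
        refine sum_le_sum fun e he => (resp_card _).trans (Nat.pow_le_pow_right hK ?_)
        rw [hPr, mem_filter] at he
        have h1 := rk_mrg (id : W → W) e.1 e.2 he.2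
        have h2 := rk_add (mrg (id : W → W) e.1 e.2)
        omega
    _ = Pr.card * K ^ (Fintype.card W - 1) := by rw [sum_const, smul_eq_mul]
    _ ≤ _ := by
        refine Nat.mul_le_mul_right _ ?_
        calc Pr.card ≤ (X ×ˢ X).card := card_filter_le _ _
          _ = X.card ^ 2 := by rw [card_product, sq]

end neg

end Pool.Agent.MonoIP
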