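import Pool.Agent.Lib.AC0IP.Defs

/-!
# Interactive proofs with monotone verifiers: definitions
-/

namespace Pool.Agent.MonoIP

open Pool.Agent.AC0IP

/-- `f` is a constant or an input bit. -/
def IsBit {ι : Type} (f : BF ι) : Prop :=
  (∃ c : Bool, ∀ x, f x = c) ∨ ∃ i : ι, ∀ x, f x = x i

/-- `g` is a monotone circuit with gate set `Γ` and levels `lev`: every gate is the OR or the AND of
a set of functions, each being a constant, an input bit or a gate of smaller level. -/
def IsMonoCircuit {ι Γ : Type} (lev : Γ → ℕ) (g : Γ → BF ι) : Prop :=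
  ∀ a : Γ, ∃ A : Set (BF ι),
    (∀ f ∈ A, IsBit f ∨ ∃ b : Γ, lev b < lev a ∧ ∀ x, f x = g b x) ∧
    ((∀ x, g a x = true ↔ ∃ f ∈ A, f x = true) ∨ (∀ x, g a x = true ↔ ∀ f ∈ A, f x = true))

/-- `f` is computed by a monotone circuit with at most `S` gates (of unbounded fan-in). -/
def MonoComputed {ι : Type} (S : ℕ) (f : BF ι) : Prop :=
  ∃ (lev : Fin S → ℕ) (g : Fin S → BF ι), IsMonoCircuit lev g ∧
    (IsBit f ∨ ∃ a, ∀ x, f x = g a x)

/-- The messages of the verifier do not depend on the input, and for all coins and all answers of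
the prover the verdict is computed, as a function of the input, by a monotone circuit with at most
`S` gates. -/
def MonotoneSmall {ι : Type} (V : Verifier ι) (S : ℕ) : Prop :=
  ∀ ω h, (∀ x x', V.ask ω h x = V.ask ω h x') ∧ MonoComputed S (V.verdict ω h)

end Pool.Agent.MonoIP
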