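import Pool.Agent.Lib.MonoIP.Defs

/-!
# Confusing the verifier

`T`: blocks; positive inputs `xa a` for `a : T → A`, negative inputs `yn t z`.
-/

namespace Pool.Agent.MonoIP

open Pool.Agent.AC0IP Finset

variable {ι T A Z : Type}

private theorem run_indep (V : Verifier ι) (hask : ∀ ω h x x', V.ask ω h x = V.ask ω h x')
    (P : V.Prover) (ω : V.Coin) (x x' : ι → Bool) (k : ℕ) : V.run P ω x k = V.run P ω x' k := by
  induction k with
  | zero => rfl
  | succ k ih => simp only [Verifier.run, ih, hask ω _ x x']

private theorem run_len (V : Verifier ι) (P : V.Prover) (ω : V.Coin) (x : ι → Bool) (k : ℕ) :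
    (V.run P ω x k).2.length = k := by
  induction k with
  | zero => rfl
  | succ k ih =>
    show (_ :: (V.run P ω x k).2).length = _
    rw [List.length_cons, ih]

open Classical in
private noncomputable def Zs [Fintype T] (φ : BF ι) (xa : (T → A) → ι → Bool) (αP : ℕ) : Finset T :=
  univ.filter (fun t => ∃ SA : Finset A, SA.card ≤ αP ∧ ∀ a, φ (xa a) = true → a t ∈ SA)

private theorem mem_Zs [Fintype T] {φ : BF ι} {xa : (T → A) → ι → Bool} {αP : ℕ} {t : T} :
    t ∈ Zs φ xa αP ↔ ∃ SA : Finset A, SA.card ≤ αP ∧ ∀ a, φ (xa a) = true → a t ∈ SA := by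
  unfold Zs
  simp

open Classical in
private theorem count_h [Fintype T] [Fintype A] (φ : BF ι) (xa : (T → A) → ι → Bool)
    {αP ζ : ℕ} (hα : αP ≤ Fintype.card A) (hζ : ζ ≤ (Zs φ xa αP).card) :
    (univ.filter (fun a : T → A => φ (xa a) = true)).card * Fintype.card A ^ ζ ≤
      αP ^ ζ * Fintype.card (T → A) := by
  set n := (Zs φ xa αP).card with hn
  have h1 : ∀ t ∈ Zs φ xa αP, ∃ SA : Finset A, SA.card ≤ αP ∧
      ∀ a, φ (xa a) = true → a t ∈ SA := by
    intro t ht
    exact mem_Zs.1 ht
  choose! SA hS1 hS2 using h1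
  have hsub : univ.filter (fun a : T → A => φ (xa a) = true) ⊆
      Fintype.piFinset (fun t => if t ∈ Zs φ xa αP then SA t else univ) := by
    intro a ha
    rw [mem_filter] at ha
    rw [Fintype.mem_piFinset]
    intro t
    split_ifs with ht
    · exact hS2 t ht a ha.2
    · exact mem_univ _
  have h2 : (univ.filter (fun a : T → A => φ (xa a) = true)).card ≤
      αP ^ n * Fintype.card A ^ (Fintype.card T - n) := by
    refine (card_le_card hsub).trans ?_
    rw [Fintype.card_piFinset]
    calc ∏ t, (if t ∈ Zs φ xa αP then SA t else univ).card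
        ≤ ∏ t, (if t ∈ Zs φ xa αP then αP else Fintype.card A) := by
          refine prod_le_prod (fun _ _ => Nat.zero_le _) fun t _ => ?_
          split_ifs with ht
          · exact hS1 t ht
          · exact card_univ.le
      _ = αP ^ n * Fintype.card A ^ (Fintype.card T - n) := by
          rw [prod_ite, prod_const, prod_const]
          have e1 : (univ.filter (fun t => t ∈ Zs φ xa αP)).card = n := by
            rw [filter_mem_eq_inter, univ_inter]
          have e2 := card_filter_add_card_filter_not (s := (univ : Finset T))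
            (fun t => t ∈ Zs φ xa αP)
          rw [e1, card_univ] at e2
          rw [e1]
          congr 2
          omega
  have hnT : n ≤ Fintype.card T := card_le_univ _
  obtain ⟨j, hj⟩ := Nat.exists_eq_add_of_le hζ
  obtain ⟨i, hi⟩ := Nat.exists_eq_add_of_le hnT
  calc (univ.filter (fun a : T → A => φ (xa a) = true)).card * Fintype.card A ^ ζ
      ≤ (αP ^ n * Fintype.card A ^ (Fintype.card T - n)) * Fintype.card A ^ ζ :=
        Nat.mul_le_mul_right _ h2
    _ = αP ^ ζ * (αP ^ j * Fintype.card A ^ i * Fintype.card A ^ ζ) := by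
        rw [hi, Nat.add_sub_cancel_left, hj, pow_add]
        ring
    _ ≤ αP ^ ζ * (Fintype.card A ^ j * Fintype.card A ^ i * Fintype.card A ^ ζ) :=
        Nat.mul_le_mul_left _ (Nat.mul_le_mul_right _ (Nat.mul_le_mul_right _
          (Nat.pow_le_pow_left hα j)))
    _ = αP ^ ζ * Fintype.card (T → A) := by
        rw [Fintype.card_fun, hi, hj]
        ring

open Classical in
private theorem count_big [Fintype T] [Fintype A] (V : Verifier ι) (ω : V.Coin)
    (xa : (T → A) → ι → Bool) {αP ζ : ℕ} (hα : αP ≤ Fintype.card A)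
    (hh : (T → A) → List Bool) (hl : ∀ a, (hh a).length = V.len) :
    (univ.filter (fun a : T → A => V.verdict ω (hh a) (xa a) = true ∧
      ζ ≤ (Zs (V.verdict ω (hh a)) xa αP).card)).card * Fintype.card A ^ ζ ≤
      2 ^ V.len * (αP ^ ζ * Fintype.card (T → A)) := by
  have hsub : univ.filter (fun a : T → A => V.verdict ω (hh a) (xa a) = true ∧
      ζ ≤ (Zs (V.verdict ω (hh a)) xa αP).card) ⊆
      (univ : Finset (Fin V.len → Bool)).biUnion (fun g =>
        univ.filter (fun a : T → A => V.verdict ω (List.ofFn g) (xa a) = true ∧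
          ζ ≤ (Zs (V.verdict ω (List.ofFn g)) xa αP).card)) := by
    intro a ha
    rw [mem_filter] at ha
    rw [mem_biUnion]
    refine ⟨fun i => (hh a).get (Fin.cast (hl a).symm i), mem_univ _, ?_⟩
    have e : List.ofFn (fun i => (hh a).get (Fin.cast (hl a).symm i)) = hh a := by
      refine List.ext_get (by simp [hl a]) ?_
      intro n h1 h2
      simp
    rw [mem_filter, e]
    exact ha
  have h1 := (card_le_card hsub).trans card_biUnion_le
  refine (Nat.mul_le_mul_right _ h1).trans ?_
  rw [sum_mul]
  calc _ ≤ ∑ _g : Fin V.len → Bool, αP ^ ζ * Fintype.card (T → A) := by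
        refine sum_le_sum fun g _ => ?_
        by_cases hz : ζ ≤ (Zs (V.verdict ω (List.ofFn g)) xa αP).card
        · refine le_trans (Nat.mul_le_mul_right _ (card_le_card ?_))
            (count_h (V.verdict ω (List.ofFn g)) xa hα hz)
          intro a ha
          rw [mem_filter] at ha ⊢
          exact ⟨ha.1, ha.2.1⟩
        · rw [filter_eq_empty_iff.2, card_empty, zero_mul]
          · exact Nat.zero_le _
          · rintro a - ⟨-, h⟩
            exact hz h
    _ = 2 ^ V.len * (αP ^ ζ * Fintype.card (T → A)) := by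
        rw [sum_const, card_univ, Fintype.card_fun, Fintype.card_bool, Fintype.card_fin,
          smul_eq_mul]

attribute [local instance] Verifier.fin Verifier.ne

open Classical in
private theorem accProb_eq (V : Verifier ι) (hask : ∀ ω h x x', V.ask ω h x = V.ask ω h x')
    (P : V.Prover) (x x' : ι → Bool) :
    V.accProb P x' * Nat.card V.Coin =
      ∑ ω : V.Coin, (if V.verdict ω (V.run P ω x V.len).2 x' = true then (1 : ℝ) else 0) := by
  have hN : (0:ℝ) < Nat.card V.Coin := by
    rw [Nat.card_eq_fintype_card]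
    exact_mod_cast Fintype.card_pos
  unfold Verifier.accProb
  rw [div_mul_cancel₀ _ hN.ne', Nat.card_eq_fintype_card, Fintype.card_subtype, sum_boole]
  congr 1
  congr 1
  ext ω
  rw [mem_filter, mem_filter]
  unfold Verifier.accepts
  rw [run_indep V hask P ω x x']

open Classical in
theorem proto [Fintype T] [Nonempty T] [Fintype A] [Nonempty A] [Fintype Z] [Nonempty Z]
    (V : Verifier ι) (hask : ∀ ω h x x', V.ask ω h x = V.ask ω h x') {C : Set V.Prover}
    {L : Set (ι → Bool)} {c s : ℝ} (hdec : V.Decides C L c s) (xa : (T → A) → ι → Bool)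
    (yn : T → Z → ι → Bool) (hxa : ∀ a, xa a ∈ L) (hyn : ∀ t z, yn t z ∉ L) {αP βN ζ : ℕ}
    (hα : αP ≤ Fintype.card A)
    (hcase : ∀ ω h t, (∃ SA : Finset A, SA.card ≤ αP ∧
        ∀ a, V.verdict ω h (xa a) = true → a t ∈ SA) ∨
      (univ.filter (fun z => V.verdict ω h (yn t z) = false)).card ≤ βN) :
    c - s ≤ (ζ : ℝ) / Fintype.card T + (βN : ℝ) / Fintype.card Z +
      2 ^ V.len * ((αP : ℝ) / Fintype.card A) ^ ζ := by
  have hB : (0 : ℝ) < Fintype.card T := by exact_mod_cast Fintype.card_pos
  have hZ : (0 : ℝ) < Fintype.card Z := by exact_mod_cast Fintype.card_pos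
  have hA : (0 : ℝ) < Fintype.card A := by exact_mod_cast Fintype.card_pos
  have hN : (0 : ℝ) < Fintype.card (T → A) := by exact_mod_cast Fintype.card_pos
  have hC : (0:ℝ) < Nat.card V.Coin := by
    rw [Nat.card_eq_fintype_card]
    exact_mod_cast Fintype.card_pos
  have hprov : ∀ a : T → A, ∃ P ∈ C, c ≤ V.accProb P (xa a) := fun a => hdec.1 _ (hxa a)
  choose P hPC hP using hprov
  set hh : (T → A) → V.Coin → List Bool := fun a ω => (V.run (P a) ω (xa a) V.len).2 with hhd
  have hacc : ∀ a x', V.accProb (P a) x' * Nat.card V.Coin =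
      ∑ ω : V.Coin, (if V.verdict ω (hh a ω) x' = true then (1 : ℝ) else 0) := fun a x' =>
    accProb_eq V hask (P a) (xa a) x'
  -- completeness
  have hS1 : c * Nat.card V.Coin * Fintype.card (T → A) ≤
      ∑ a, ∑ ω : V.Coin, (if V.verdict ω (hh a ω) (xa a) = true then (1 : ℝ) else 0) := by
    calc c * Nat.card V.Coin * Fintype.card (T → A) =
          ∑ _a : T → A, c * (Nat.card V.Coin : ℝ) := by
          rw [sum_const, card_univ, nsmul_eq_mul]; ring
      _ ≤ _ := by
          refine sum_le_sum fun a _ => ?_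
          rw [← hacc]
          exact mul_le_mul_of_nonneg_right (hP a) hC.le
  -- soundness
  have hS2 : ∑ a, ∑ ω : V.Coin, ∑ t : T, ∑ z : Z,
      (if V.verdict ω (hh a ω) (yn t z) = true then (1 : ℝ) else 0) ≤
      s * Nat.card V.Coin * Fintype.card (T → A) * (Fintype.card T * Fintype.card Z) := by
    calc _ ≤ ∑ _a : T → A, s * Nat.card V.Coin * (Fintype.card T * Fintype.card Z : ℝ) := by
          refine sum_le_sum fun a _ => ?_
          rw [sum_comm]
          calc ∑ t : T, ∑ ω : V.Coin, ∑ z : Z,
              (if V.verdict ω (hh a ω) (yn t z) = true then (1 : ℝ) else 0)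
              ≤ ∑ _t : T, ∑ _z : Z, s * (Nat.card V.Coin : ℝ) := by
                refine sum_le_sum fun t _ => ?_
                rw [sum_comm]
                refine sum_le_sum fun z _ => ?_
                rw [← hacc]
                exact mul_le_mul_of_nonneg_right (hdec.2 _ (hyn t z) _ (hPC a)) hC.le
            _ = s * Nat.card V.Coin * (Fintype.card T * Fintype.card Z : ℝ) := by
                rw [sum_const, sum_const, card_univ, card_univ, nsmul_eq_mul, nsmul_eq_mul]
                ring
      _ = _ := by
          rw [sum_const, card_univ, nsmul_eq_mul]; ring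
  -- pointwise
  have hpt : ∀ (a : T → A) (ω : V.Coin),
      (if V.verdict ω (hh a ω) (xa a) = true then (1 : ℝ) else 0) *
        (Fintype.card T * Fintype.card Z) ≤
      (∑ t : T, ∑ z : Z, (if V.verdict ω (hh a ω) (yn t z) = true then (1 : ℝ) else 0)) +
        (ζ * Fintype.card Z + βN * Fintype.card T) +
        (if V.verdict ω (hh a ω) (xa a) = true ∧
          ζ ≤ (Zs (V.verdict ω (hh a ω)) xa αP).card then (1 : ℝ) else 0) *
          (Fintype.card T * Fintype.card Z) := by
    intro a ω
    have hJ0 : 0 ≤ ∑ t : T, ∑ z : Z,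
        (if V.verdict ω (hh a ω) (yn t z) = true then (1 : ℝ) else 0) :=
      sum_nonneg fun t _ => sum_nonneg fun z _ => by split_ifs <;> norm_num
    have hnn : 0 ≤ (ζ : ℝ) * Fintype.card Z + βN * Fintype.card T := by positivity
    by_cases h1 : V.verdict ω (hh a ω) (xa a) = true
    · by_cases h2 : ζ ≤ (Zs (V.verdict ω (hh a ω)) xa αP).card
      · rw [if_pos h1, if_pos ⟨h1, h2⟩]
        linarith
      · rw [if_pos h1, if_neg (fun h => h2 h.2), zero_mul, add_zero, one_mul]
        set S := Zs (V.verdict ω (hh a ω)) xa αP with hS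
        have h3 : ∀ t, t ∉ S → (Fintype.card Z : ℝ) - βN ≤
            ∑ z : Z, (if V.verdict ω (hh a ω) (yn t z) = true then (1 : ℝ) else 0) := by
          intro t ht
          rcases hcase ω (hh a ω) t with h4 | h4
          · exact absurd (mem_Zs.2 h4) ht
          · have h5 := card_filter_add_card_filter_not (s := (univ : Finset Z))
              (fun z => V.verdict ω (hh a ω) (yn t z) = true)
            have h6 : univ.filter (fun z => ¬ V.verdict ω (hh a ω) (yn t z) = true) =
                univ.filter (fun z => V.verdict ω (hh a ω) (yn t z) = false) := by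
              ext z
              simp
            rw [h6, card_univ] at h5
            rw [sum_boole]
            have h7 : (Fintype.card Z : ℝ) = ((univ.filter (fun z =>
                V.verdict ω (hh a ω) (yn t z) = true)).card : ℝ) +
                ((univ.filter (fun z => V.verdict ω (hh a ω) (yn t z) = false)).card : ℝ) := by
              exact_mod_cast h5.symm
            have h8 : ((univ.filter (fun z => V.verdict ω (hh a ω) (yn t z) = false)).card : ℝ)
                ≤ βN := by exact_mod_cast h4
            linarith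
        have h4 : ∑ t ∈ univ \ S, ((Fintype.card Z : ℝ) - βN) ≤
            ∑ t : T, ∑ z : Z,
              (if V.verdict ω (hh a ω) (yn t z) = true then (1 : ℝ) else 0) := by
          refine le_trans (sum_le_sum fun t ht => h3 t (mem_sdiff.1 ht).2) ?_
          exact sum_le_sum_of_subset_of_nonneg (sdiff_subset) fun t _ _ =>
            sum_nonneg fun z _ => by split_ifs <;> norm_num
        rw [sum_const, nsmul_eq_mul] at h4
        have h5 : ((univ \ S).card : ℝ) = (Fintype.card T : ℝ) - S.card := by
          rw [card_sdiff_of_subset (subset_univ S), card_univ,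
            Nat.cast_sub (card_le_univ S)]
        rw [h5] at h4
        have h6 : (S.card : ℝ) ≤ ζ := by
          have : S.card < ζ := by omega
          exact_mod_cast this.le
        have h7 : (S.card : ℝ) ≤ Fintype.card T := by exact_mod_cast card_le_univ S
        have h8 : (0 : ℝ) ≤ S.card := Nat.cast_nonneg _
        have h9 : (0 : ℝ) ≤ βN := Nat.cast_nonneg _
        nlinarith [mul_nonneg h8 h9, mul_le_mul_of_nonneg_right h6 hZ.le]
    · rw [if_neg h1, if_neg (fun h => h1 h.1), zero_mul]
      linarith
  -- the exceptional part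
  have hbig : ∀ ω : V.Coin, ∑ a : T → A, (if V.verdict ω (hh a ω) (xa a) = true ∧
      ζ ≤ (Zs (V.verdict ω (hh a ω)) xa αP).card then (1 : ℝ) else 0) ≤
      2 ^ V.len * ((αP : ℝ) / Fintype.card A) ^ ζ * Fintype.card (T → A) := by
    intro ω
    have h1 := count_big V ω xa (ζ := ζ) hα (fun a => hh a ω)
      (fun a => run_len V (P a) ω (xa a) V.len)
    rw [sum_boole]
    have h2 : (((univ.filter (fun a : T → A => V.verdict ω (hh a ω) (xa a) = true ∧
        ζ ≤ (Zs (V.verdict ω (hh a ω)) xa αP).card)).card : ℕ) : ℝ) *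
        (Fintype.card A : ℝ) ^ ζ ≤ 2 ^ V.len * ((αP : ℝ) ^ ζ * Fintype.card (T → A)) := by
      exact_mod_cast h1
    have hAp : (0 : ℝ) < (Fintype.card A : ℝ) ^ ζ := pow_pos hA ζ
    rw [← le_div_iff₀ hAp] at h2
    refine h2.trans (le_of_eq ?_)
    rw [div_pow]
    field_simp
  -- summing up
  have hsum : (∑ a, ∑ ω : V.Coin, (if V.verdict ω (hh a ω) (xa a) = true then (1 : ℝ) else 0)) *
      (Fintype.card T * Fintype.card Z) ≤
      (∑ a, ∑ ω : V.Coin, ∑ t : T, ∑ z : Z,
        (if V.verdict ω (hh a ω) (yn t z) = true then (1 : ℝ) else 0)) +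
      (Fintype.card (T → A) * Nat.card V.Coin) * (ζ * Fintype.card Z + βN * Fintype.card T) +
      (Nat.card V.Coin * (2 ^ V.len * ((αP : ℝ) / Fintype.card A) ^ ζ *
        Fintype.card (T → A))) * (Fintype.card T * Fintype.card Z) := by
    have h1 : ∑ a, ∑ ω : V.Coin, (if V.verdict ω (hh a ω) (xa a) = true ∧
        ζ ≤ (Zs (V.verdict ω (hh a ω)) xa αP).card then (1 : ℝ) else 0) ≤
        Nat.card V.Coin * (2 ^ V.len * ((αP : ℝ) / Fintype.card A) ^ ζ *
          Fintype.card (T → A)) := by
      rw [sum_comm]
      refine (sum_le_sum fun ω _ => hbig ω).trans (le_of_eq ?_)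
      rw [sum_const, card_univ, nsmul_eq_mul, Nat.card_eq_fintype_card]
    calc _ = ∑ a, ∑ ω : V.Coin, (if V.verdict ω (hh a ω) (xa a) = true then (1 : ℝ) else 0) *
            (Fintype.card T * Fintype.card Z) := by
          rw [sum_mul]
          refine sum_congr rfl fun a _ => ?_
          rw [sum_mul]
      _ ≤ ∑ a, ∑ ω : V.Coin, ((∑ t : T, ∑ z : Z,
            (if V.verdict ω (hh a ω) (yn t z) = true then (1 : ℝ) else 0)) +
            (ζ * Fintype.card Z + βN * Fintype.card T) +
            (if V.verdict ω (hh a ω) (xa a) = true ∧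
              ζ ≤ (Zs (V.verdict ω (hh a ω)) xa αP).card then (1 : ℝ) else 0) *
            (Fintype.card T * Fintype.card Z)) :=
          sum_le_sum fun a _ => sum_le_sum fun ω _ => hpt a ω
      _ = (∑ a, ∑ ω : V.Coin, ∑ t : T, ∑ z : Z,
            (if V.verdict ω (hh a ω) (yn t z) = true then (1 : ℝ) else 0)) +
          (Fintype.card (T → A) * Nat.card V.Coin) *
            (ζ * Fintype.card Z + βN * Fintype.card T) +
          (∑ a, ∑ ω : V.Coin, (if V.verdict ω (hh a ω) (xa a) = true ∧
            ζ ≤ (Zs (V.verdict ω (hh a ω)) xa αP).card then (1 : ℝ) else 0)) *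
            (Fintype.card T * Fintype.card Z) := by
          generalize (ζ * Fintype.card Z + βN * Fintype.card T : ℝ) = q
          simp only [sum_add_distrib, ← sum_mul]
          rw [sum_const, sum_const, card_univ, card_univ, nsmul_eq_mul, nsmul_eq_mul,
            Nat.card_eq_fintype_card]
          ring
      _ ≤ _ := by
          have := mul_le_mul_of_nonneg_right h1 (mul_pos hB hZ).le
          linarith
  have h1 := mul_le_mul_of_nonneg_right hS1 (mul_pos hB hZ).le
  have h2 : (c - s) * (Nat.card V.Coin * Fintype.card (T → A) *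
      (Fintype.card T * Fintype.card Z)) ≤
      ((ζ : ℝ) / Fintype.card T + (βN : ℝ) / Fintype.card Z +
      2 ^ V.len * ((αP : ℝ) / Fintype.card A) ^ ζ) * (Nat.card V.Coin * Fintype.card (T → A) *
      (Fintype.card T * Fintype.card Z)) := by
    have e1 : ((ζ : ℝ) / Fintype.card T + (βN : ℝ) / Fintype.card Z +
        2 ^ V.len * ((αP : ℝ) / Fintype.card A) ^ ζ) * (Nat.card V.Coin *
        Fintype.card (T → A) * (Fintype.card T * Fintype.card Z)) =
        (Fintype.card (T → A) * Nat.card V.Coin) *
          (ζ * Fintype.card Z + βN * Fintype.card T) +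
        (Nat.card V.Coin * (2 ^ V.len * ((αP : ℝ) / Fintype.card A) ^ ζ *
          Fintype.card (T → A))) * (Fintype.card T * Fintype.card Z) := by
      generalize ((αP : ℝ) / Fintype.card A) ^ ζ = y
      field_simp
    rw [e1]
    linarith
  exact le_of_mul_le_mul_right h2 (mul_pos (mul_pos hC hN) (mul_pos hB hZ))

end Pool.Agent.MonoIP
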