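import Pool.Agent.Lib.MonoIP.Defs

/-!
# Reduction of blockwise non-colourability to `k`-UNSAT, `k = q + 1`, `q ≥ 2`

Blocks `(σ, j)`, `σ : Fin q → Fin b`, `j < n`. Variables: `s r i` (in coordinate `r < q` the index
`i` is selected), `a r i` (`i ≤ b`: in coordinate `r` some index `≥ i` is selected), `p j` (`j` is
selected), `o j` (`j ≤ n`: some index `≥ j` is selected), and for every `j < n`: `z j u c` (vertex
`u` has colour `c`), `y j u c` (`c ≤ K`: `u` has some colour `≥ c`), `e j` (the pair `e` is an edge).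
Clauses: (A) `a r 0`; `¬ a r b`; for `i < b`: `¬ a r i ∨ s r i ∨ a r (i+1)`;
 (A') `o 0`; `¬ o n`; `¬ o j ∨ p j ∨ o (j+1)`;
 (B) `¬ p j ∨ y j u 0`; `¬ y j u K`; `¬ y j u c ∨ z j u c ∨ y j u (c+1)`;
 (C) `¬ e j ∨ ¬ z j e.1 c ∨ ¬ z j e.2 c`;
 (D) for all `σ`, `j`, `e`: `⋁ r, ¬ s r (σ r) ∨ e j`, present iff `x ((σ, j), e)`.
-/

namespace Pool.Agent.MonoIP

open Pool.Agent.AC0IP

/-- The graph `g` has a proper colouring with `K` colours. -/
def Colb {W : Type} (K : ℕ) (g : W × W → Bool) : Prop :=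
  ∃ z : W → Fin K, ∀ e, g e = true → z e.1 ≠ z e.2

private abbrev Vr (q b n K : ℕ) (W : Type) : Type :=
  (Fin q × Fin b) ⊕ (Fin q × Fin (b + 1)) ⊕ Fin n ⊕ Fin (n + 1) ⊕ (Fin n × W × Fin K) ⊕
    (Fin n × W × Fin (K + 1)) ⊕ (Fin n × W × W)

section

variable {q b n K v : ℕ} {W : Type}

private abbrev vs (r : Fin q) (i : Fin b) : Vr q b n K W := .inl (r, i)
private abbrev va (r : Fin q) (i : Fin (b + 1)) : Vr q b n K W := .inr (.inl (r, i))
private abbrev vp (j : Fin n) : Vr q b n K W := .inr (.inr (.inl j))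
private abbrev vo (j : Fin (n + 1)) : Vr q b n K W := .inr (.inr (.inr (.inl j)))
private abbrev vz (j : Fin n) (u : W) (c : Fin K) : Vr q b n K W :=
  .inr (.inr (.inr (.inr (.inl (j, u, c)))))
private abbrev vy (j : Fin n) (u : W) (c : Fin (K + 1)) : Vr q b n K W :=
  .inr (.inr (.inr (.inr (.inr (.inl (j, u, c))))))
private abbrev ve (j : Fin n) (e : W × W) : Vr q b n K W :=
  .inr (.inr (.inr (.inr (.inr (.inr (j, e))))))

/-- clause with three given literals, the last one repeated -/
private def cl3 {α : Type} (q : ℕ) (a b c : α × Bool) : Fin (q + 1) → α × Bool :=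
  fun t => if t.val = 0 then a else if t.val = 1 then b else c

/-- the clauses which are always present -/
private def Fixed (c : Fin (q + 1) → Vr q b n K W × Bool) : Prop :=
  (∃ r, c = cl3 q (va r 0, true) (va r 0, true) (va r 0, true)) ∨
  (∃ r, c = cl3 q (va r (Fin.last b), false) (va r (Fin.last b), false)
    (va r (Fin.last b), false)) ∨
  (∃ (r : Fin q) (i : Fin b), c = cl3 q (va r i.castSucc, false) (vs r i, true)
    (va r i.succ, true)) ∨
  c = cl3 q (vo 0, true) (vo 0, true) (vo 0, true) ∨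
  c = cl3 q (vo (Fin.last n), false) (vo (Fin.last n), false) (vo (Fin.last n), false) ∨
  (∃ j : Fin n, c = cl3 q (vo j.castSucc, false) (vp j, true) (vo j.succ, true)) ∨
  (∃ (j : Fin n) (u : W), c = cl3 q (vp j, false) (vy j u 0, true) (vy j u 0, true)) ∨
  (∃ (j : Fin n) (u : W), c = cl3 q (vy j u (Fin.last K), false) (vy j u (Fin.last K), false)
    (vy j u (Fin.last K), false)) ∨
  (∃ (j : Fin n) (u : W) (i : Fin K), c = cl3 q (vy j u i.castSucc, false) (vz j u i, true)
    (vy j u i.succ, true)) ∨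
  ∃ (j : Fin n) (e : W × W) (i : Fin K),
    c = cl3 q (ve j e, false) (vz j e.1 i, false) (vz j e.2 i, false)

/-- the clauses which depend on the input -/
private def cC (σ : Fin q → Fin b) (j : Fin n) (e : W × W) :
    Fin (q + 1) → Vr q b n K W × Bool :=
  Fin.cons (ve j e, true) (fun r => (vs r (σ r), false))

/-- the clauses of the formula -/
private def InF (x : ((Fin q → Fin b) × Fin n) × (W × W) → Bool)
    (c : Fin (q + 1) → Vr q b n K W × Bool) : Prop :=
  Fixed c ∨ ∃ σ j e, c = cC σ j e ∧ x ((σ, j), e) = true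

/-- renaming of the variables -/
private def emb (f : Vr q b n K W ↪ Fin v) (c : Fin (q + 1) → Vr q b n K W × Bool) :
    AC0IP.Clause (q + 1) v :=
  fun t => (f (c t).1, (c t).2)

private theorem emb_inj (f : Vr q b n K W ↪ Fin v) : Function.Injective (emb f) := by
  intro c c' h
  funext t
  have h1 := congrFun h t
  unfold emb at h1
  rw [Prod.mk.injEq] at h1
  exact Prod.ext (f.injective h1.1) h1.2

private theorem cC_inj {σ σ' : Fin q → Fin b} {j j' : Fin n} {e e' : W × W}
    (h : (cC σ j e : Fin (q + 1) → Vr q b n K W × Bool) = cC σ' j' e') :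
    σ = σ' ∧ j = j' ∧ e = e' := by
  have h0 := congrFun h 0
  unfold cC at h0
  rw [Fin.cons_zero, Fin.cons_zero, Prod.mk.injEq] at h0
  have h2 : j = j' ∧ e = e' := by simpa [Prod.ext_iff] using h0.1
  refine ⟨?_, h2.1, h2.2⟩
  funext r
  have h1 := congrFun h r.succ
  unfold cC at h1
  rw [Fin.cons_succ, Fin.cons_succ, Prod.mk.injEq] at h1
  simpa using h1.1

private theorem sat_cl3 {α : Type} {q : ℕ} (hq : 2 ≤ q) (Y : α → Bool) (a b c : α × Bool) :
    (∃ t, Y ((cl3 q a b c) t).1 = ((cl3 q a b c) t).2) ↔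
      Y a.1 = a.2 ∨ Y b.1 = b.2 ∨ Y c.1 = c.2 := by
  constructor
  · rintro ⟨t, ht⟩
    unfold cl3 at ht
    by_cases h0 : t.val = 0
    · rw [if_pos h0] at ht
      exact Or.inl ht
    · rw [if_neg h0] at ht
      by_cases h1 : t.val = 1
      · rw [if_pos h1] at ht
        exact Or.inr (Or.inl ht)
      · rw [if_neg h1] at ht
        exact Or.inr (Or.inr ht)
  · rintro (h | h | h)
    · exact ⟨⟨0, by omega⟩, h⟩
    · refine ⟨⟨1, by omega⟩, ?_⟩
      unfold cl3
      simpa using h
    · refine ⟨⟨2, by omega⟩, ?_⟩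
      unfold cl3
      simpa using h

private theorem sat_cC (Y : Vr q b n K W → Bool) (σ : Fin q → Fin b) (j : Fin n) (e : W × W) :
    (∃ t, Y ((cC σ j e : Fin (q + 1) → Vr q b n K W × Bool) t).1 =
      ((cC σ j e : Fin (q + 1) → Vr q b n K W × Bool) t).2) ↔
      Y (ve j e) = true ∨ ∃ r, Y (vs r (σ r)) = false := by
  unfold cC
  constructor
  · rintro ⟨t, ht⟩
    rcases Fin.eq_zero_or_eq_succ t with rfl | ⟨r, rfl⟩
    · rw [Fin.cons_zero] at ht
      exact Or.inl ht
    · rw [Fin.cons_succ] at ht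
      exact Or.inr ⟨r, ht⟩
  · rintro (h | ⟨r, h⟩)
    · refine ⟨0, ?_⟩
      rw [Fin.cons_zero]
      exact h
    · refine ⟨r.succ, ?_⟩
      rw [Fin.cons_succ]
      exact h

private theorem chain {n : ℕ} (a : Fin (n + 1) → Bool) (s : Fin n → Bool) (h0 : a 0 = true)
    (hl : a (Fin.last n) = false)
    (h : ∀ i : Fin n, a i.castSucc = false ∨ s i = true ∨ a i.succ = true) :
    ∃ i, s i = true := by
  by_contra hno
  have hall : ∀ i : Fin (n + 1), a i = true := by
    intro i
    induction i using Fin.induction with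
    | zero => exact h0
    | succ i ih =>
      rcases h i with h1 | h1 | h1
      · rw [ih] at h1; exact absurd h1 (by simp)
      · exact absurd ⟨i, h1⟩ hno
      · exact h1
  rw [hall] at hl
  exact absurd hl (by simp)

private theorem sat_iff (hq : 2 ≤ q) (x : ((Fin q → Fin b) × Fin n) × (W × W) → Bool) :
    (∃ Y : Vr q b n K W → Bool, ∀ c, InF x c → ∃ t, Y (c t).1 = (c t).2) ↔
      ∃ σ j, Colb K (fun e => x ((σ, j), e)) := by
  classical
  constructor
  · rintro ⟨Y, hY⟩
    have hF : ∀ a b' c : Vr q b n K W × Bool, Fixed (cl3 q a b' c) →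
        Y a.1 = a.2 ∨ Y b'.1 = b'.2 ∨ Y c.1 = c.2 := fun a b' c h =>
      (sat_cl3 hq Y a b' c).1 (hY _ (Or.inl h))
    have ha0 : ∀ r, Y (va r 0) = true := by
      intro r
      rcases hF _ _ _ (Or.inl ⟨r, rfl⟩) with h | h | h <;> exact h
    have ham : ∀ r, Y (va r (Fin.last b)) = false := by
      intro r
      rcases hF _ _ _ (Or.inr (Or.inl ⟨r, rfl⟩)) with h | h | h <;> exact h
    have hai : ∀ (r : Fin q) (i : Fin b), Y (va r i.castSucc) = false ∨ Y (vs r i) = true ∨
        Y (va r i.succ) = true := fun r i =>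
      hF _ _ _ (Or.inr (Or.inr (Or.inl ⟨r, i, rfl⟩)))
    have ho0 : Y (vo 0) = true := by
      rcases hF _ _ _ (Or.inr (Or.inr (Or.inr (Or.inl rfl)))) with h | h | h <;> exact h
    have hom : Y (vo (Fin.last n)) = false := by
      rcases hF _ _ _ (Or.inr (Or.inr (Or.inr (Or.inr (Or.inl rfl))))) with h | h | h <;> exact h
    have hoi : ∀ j : Fin n, Y (vo j.castSucc) = false ∨ Y (vp j) = true ∨
        Y (vo j.succ) = true := fun j =>
      hF _ _ _ (Or.inr (Or.inr (Or.inr (Or.inr (Or.inr (Or.inl ⟨j, rfl⟩))))))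
    have hy0 : ∀ j u, Y (vp j) = true → Y (vy j u 0) = true := by
      intro j u hj
      rcases hF _ _ _ (Or.inr (Or.inr (Or.inr (Or.inr (Or.inr (Or.inr (Or.inl ⟨j, u, rfl⟩)))))))
        with h | h | h
      · exact absurd (hj.symm.trans h) (by simp)
      · exact h
      · exact h
    have hym : ∀ j u, Y (vy j u (Fin.last K)) = false := by
      intro j u
      rcases hF _ _ _ (Or.inr (Or.inr (Or.inr (Or.inr (Or.inr (Or.inr (Or.inr (Or.inl
        ⟨j, u, rfl⟩)))))))) with h | h | h <;> exact h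
    have hyi : ∀ (j : Fin n) (u : W) (i : Fin K), Y (vy j u i.castSucc) = false ∨
        Y (vz j u i) = true ∨ Y (vy j u i.succ) = true := fun j u i =>
      hF _ _ _ (Or.inr (Or.inr (Or.inr (Or.inr (Or.inr (Or.inr (Or.inr (Or.inr (Or.inl
        ⟨j, u, i, rfl⟩)))))))))
    have hee : ∀ (j : Fin n) (e : W × W) (i : Fin K), Y (ve j e) = false ∨
        Y (vz j e.1 i) = false ∨ Y (vz j e.2 i) = false := fun j e i =>
      hF _ _ _ (Or.inr (Or.inr (Or.inr (Or.inr (Or.inr (Or.inr (Or.inr (Or.inr (Or.inr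
        ⟨j, e, i, rfl⟩)))))))))
    have hsel : ∀ r : Fin q, ∃ i, Y (vs r i) = true := fun r =>
      chain (fun i => Y (va r i)) (fun i => Y (vs r i)) (ha0 r) (ham r) (hai r)
    obtain ⟨j, hj⟩ : ∃ j, Y (vp j) = true :=
      chain (fun i => Y (vo i)) (fun i => Y (vp i)) ho0 hom hoi
    have hcol : ∀ u : W, ∃ i, Y (vz j u i) = true := fun u =>
      chain (fun i => Y (vy j u i)) (fun i => Y (vz j u i)) (hy0 j u hj) (hym j u) (hyi j u)
    choose σ hσ using hsel
    choose z hz using hcol
    refine ⟨σ, j, z, ?_⟩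
    intro e he heq
    have h1 := (sat_cC Y σ j e).1 (hY _ (Or.inr ⟨σ, j, e, rfl, he⟩))
    rcases h1 with h1 | ⟨r, h1⟩
    · rcases hee j e (z e.1) with h2 | h2 | h2
      · rw [h1] at h2
        exact absurd h2 (by simp)
      · rw [hz] at h2
        exact absurd h2 (by simp)
      · rw [heq, hz] at h2
        exact absurd h2 (by simp)
    · rw [hσ] at h1
      exact absurd h1 (by simp)
  · rintro ⟨σ, j, z, hz⟩
    refine ⟨Sum.elim (fun p => decide (p.2 = σ p.1)) (Sum.elim
      (fun p => decide (p.2.val ≤ (σ p.1).val)) (Sum.elim (fun p => decide (p = j)) (Sum.elim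
      (fun p => decide (p.val ≤ j.val)) (Sum.elim
      (fun p => decide (p.1 = j ∧ p.2.2 = z p.2.1)) (Sum.elim
      (fun p => decide (p.1 = j ∧ p.2.2.val ≤ (z p.2.1).val))
      (fun p => x ((σ, p.1), p.2))))))), ?_⟩
    intro c hc
    rcases hc with hc | hc
    · rcases hc with ⟨r, rfl⟩ | ⟨r, rfl⟩ | ⟨r, i', rfl⟩ | rfl | rfl | ⟨j', rfl⟩ | ⟨j', u, rfl⟩ |
        ⟨j', u, rfl⟩ | ⟨j', u, i', rfl⟩ | ⟨j', e, i', rfl⟩
      · rw [sat_cl3 hq]; left; simp
      · rw [sat_cl3 hq]; left; simp
      · rw [sat_cl3 hq]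
        simp only [Sum.elim_inl, Sum.elim_inr, decide_eq_false_iff_not, decide_eq_true_eq,
          Fin.val_castSucc, Fin.val_succ, Fin.ext_iff]
        omega
      · rw [sat_cl3 hq]; left; simp
      · rw [sat_cl3 hq]; left; simp
      · rw [sat_cl3 hq]
        simp only [Sum.elim_inl, Sum.elim_inr, decide_eq_false_iff_not, decide_eq_true_eq,
          Fin.val_castSucc, Fin.val_succ, Fin.ext_iff]
        omega
      · rw [sat_cl3 hq]
        by_cases h1 : j' = j
        · right; left; simp [h1]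
        · left; simp [h1]
      · rw [sat_cl3 hq]; left; simp
      · rw [sat_cl3 hq]
        simp only [Sum.elim_inl, Sum.elim_inr, decide_eq_false_iff_not, decide_eq_true_eq,
          Fin.val_castSucc, Fin.val_succ, Fin.ext_iff]
        omega
      · rw [sat_cl3 hq]
        simp only [Sum.elim_inl, Sum.elim_inr, decide_eq_false_iff_not]
        by_cases h1 : x ((σ, j'), e) = true
        · right
          by_contra h2
          push Not at h2
          obtain ⟨⟨h3, h4⟩, -, h5⟩ := h2
          rw [h3] at h1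
          exact hz e h1 (h4.symm.trans h5)
        · left
          simpa using h1
    · obtain ⟨σ', j', e, rfl, hb⟩ := hc
      rw [sat_cC]
      by_cases h1 : σ' = σ
      · left
        rw [h1] at hb
        exact hb
      · right
        by_contra h2
        push Not at h2
        apply h1
        funext r
        have h3 := h2 r
        simp only [Sum.elim_inl, ne_eq, decide_eq_false_iff_not, not_not] at h3
        exact h3

end

theorem red_exists (q b n K v : ℕ) (W : Type) [Fintype W] (hq : 2 ≤ q)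
    (hv : q * (2 * b + 1) + (2 * n + 1) +
      n * (Fintype.card W * (2 * K + 1) + Fintype.card W ^ 2) ≤ v) :
    ∃ red : (((Fin q → Fin b) × Fin n) × (W × W) → Bool) → (AC0IP.Clause (q + 1) v → Bool),
      (∀ cl, IsBit (fun x => red x cl)) ∧
      ∀ x, red x ∈ UNSAT (q + 1) v ↔ ∀ t, ¬ Colb K (fun e => x (t, e)) := by
  classical
  obtain ⟨f⟩ : Nonempty (Vr q b n K W ↪ Fin v) := by
    refine Function.Embedding.nonempty_of_card_le ?_
    simp only [Fintype.card_sum, Fintype.card_fin, Fintype.card_prod]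
    refine le_trans (le_of_eq ?_) hv
    ring
  refine ⟨fun x cl => decide (∃ c, cl = emb f c ∧ InF x c), ?_, ?_⟩
  · intro cl
    by_cases h1 : ∃ c : Fin (q + 1) → Vr q b n K W × Bool, cl = emb f c ∧ Fixed c
    · left
      obtain ⟨c, hc, hf⟩ := h1
      exact ⟨true, fun x => decide_eq_true ⟨c, hc, Or.inl hf⟩⟩
    · by_cases h2 : ∃ (σ : Fin q → Fin b) (j : Fin n) (e : W × W), cl = emb f (cC σ j e)
      · right
        obtain ⟨σ, j, e, hcl⟩ := h2
        refine ⟨((σ, j), e), fun x => ?_⟩
        have h3 : (∃ c, cl = emb f c ∧ InF x c) ↔ x ((σ, j), e) = true := by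
          constructor
          · rintro ⟨c, hc, hin⟩
            rcases hin with hin | ⟨σ', j', e', hc', hx⟩
            · exact absurd ⟨c, hc, hin⟩ h1
            · have h4 : (cC σ j e : Fin (q + 1) → Vr q b n K W × Bool) = cC σ' j' e' := by
                apply emb_inj f
                rw [← hcl, hc, hc']
              obtain ⟨r1, r2, r3⟩ := cC_inj h4
              rw [r1, r2, r3]
              exact hx
          · intro hx
            exact ⟨_, hcl, Or.inr ⟨σ, j, e, rfl, hx⟩⟩
        show decide (∃ c, cl = emb f c ∧ InF x c) = x ((σ, j), e)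
        by_cases hx : x ((σ, j), e) = true
        · rw [decide_eq_true (h3.2 hx), hx]
        · rw [decide_eq_false (fun h => hx (h3.1 h))]
          simpa using hx
      · left
        refine ⟨false, fun x => decide_eq_false ?_⟩
        rintro ⟨c, hc, hin⟩
        rcases hin with hin | ⟨σ', j', e', hc', hx⟩
        · exact h1 ⟨c, hc, hin⟩
        · exact h2 ⟨σ', j', e', by rw [hc, hc']⟩
  · intro x
    have key : Satisfiable (fun cl : AC0IP.Clause (q + 1) v =>
        decide (∃ c, cl = emb f c ∧ InF x c)) ↔ ∃ σ j, Colb K (fun e => x ((σ, j), e)) := by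
      rw [← sat_iff hq]
      constructor
      · rintro ⟨y, hy⟩
        refine ⟨fun w => y (f w), fun c hc => ?_⟩
        obtain ⟨t, ht⟩ := hy (emb f c) (decide_eq_true ⟨c, rfl, hc⟩)
        exact ⟨t, ht⟩
      · rintro ⟨Y, hY⟩
        refine ⟨Function.extend f Y (fun _ => false), fun cl hcl => ?_⟩
        obtain ⟨c, hc, hin⟩ := of_decide_eq_true hcl
        obtain ⟨t, ht⟩ := hY c hin
        refine ⟨t, ?_⟩
        rw [hc]
        show Function.extend f Y (fun _ => false) (f (c t).1) = (c t).2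
        rw [f.injective.extend_apply]
        exact ht
    show (¬ Satisfiable (fun cl : AC0IP.Clause (q + 1) v =>
      decide (∃ c, cl = emb f c ∧ InF x c))) ↔ _
    rw [key]
    constructor
    · rintro h ⟨σ, j⟩ h'
      exact h ⟨σ, j, h'⟩
    · rintro h ⟨σ, j, h'⟩
      exact h (σ, j) h'

end Pool.Agent.MonoIP
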