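import Pool.Agent.Lib.MonoIP.Test
import Pool.Agent.Lib.MonoIP.Proto
import Pool.Agent.Lib.MonoIP.Red
import Pool.Agent.Lib.AC0IP.Comp

/-!
# The lower bound
-/

namespace Pool.Agent.MonoIP

open Pool.Agent.AC0IP Finset

private theorem bit_comp {ι ι' : Type} (red : (ι → Bool) → (ι' → Bool))
    (hred : ∀ cl, IsBit (fun x => red x cl)) (f : BF ι') (hf : IsBit f) :
    IsBit (fun x => f (red x)) := by
  rcases hf with ⟨c, hc⟩ | ⟨i, hb⟩
  · exact Or.inl ⟨c, fun x => hc _⟩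
  · rcases hred i with ⟨c, hc⟩ | ⟨i', hb'⟩
    · exact Or.inl ⟨c, fun x => (hb _).trans (hc x)⟩
    · exact Or.inr ⟨i', fun x => (hb _).trans (hb' x)⟩

private theorem mono_comp {ι ι' : Type} (red : (ι → Bool) → (ι' → Bool))
    (hred : ∀ cl, IsBit (fun x => red x cl)) (S : ℕ) (f : BF ι') (hf : MonoComputed S f) :
    MonoComputed S (fun x => f (red x)) := by
  obtain ⟨lev, g, hc, ho⟩ := hf
  refine ⟨lev, fun a x => g a (red x), fun a => ?_, ?_⟩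
  · obtain ⟨A, hA, hg⟩ := hc a
    refine ⟨{f' | ∃ f ∈ A, f' = fun x => f (red x)}, ?_, ?_⟩
    · rintro f' ⟨f, hf, rfl⟩
      rcases hA f hf with h | ⟨b, hb, h⟩
      · exact Or.inl (bit_comp red hred f h)
      · exact Or.inr ⟨b, hb, fun x => h _⟩
    · rcases hg with h | h
      · left
        intro x
        rw [h]
        constructor
        · rintro ⟨f, hf, hx⟩
          exact ⟨_, ⟨f, hf, rfl⟩, hx⟩
        · rintro ⟨_, ⟨f, hf, rfl⟩, hx⟩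
          exact ⟨f, hf, hx⟩
      · right
        intro x
        rw [h]
        constructor
        · rintro hx _ ⟨f, hf, rfl⟩
          exact hx f hf
        · intro hx f hf
          exact hx _ ⟨f, hf, rfl⟩
  · rcases ho with h | ⟨a, h⟩
    · exact Or.inl (bit_comp red hred f h)
    · exact Or.inr ⟨a, fun x => h _⟩

/-- the bound for block inputs -/
theorem blocks {T : Type} [Fintype T] [DecidableEq T] [Nonempty T] {K w l S ζ : ℕ} (hl : 3 ≤ l)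
    (hw : 2 * l ≤ w) (hlK : l ≤ K) (V : Verifier (T × ((Fin (K + 1) × Fin w) × (Fin (K + 1) × Fin w))))
    (hV : MonotoneSmall V S) {C : Set V.Prover} {c s : ℝ}
    (hdec : V.Decides C {x | ∀ t, ¬ Colb K (fun e => x (t, e))} c s)
    (hα : S * ((4 * l) ^ l * w ^ (K + 1 - l)) ≤ w ^ (K + 1)) :
    c - s ≤ (ζ : ℝ) / (Fintype.card T : ℝ) +
      (l ^ 2 * K ^ ((K + 1) * w - 1) + S * ((l ^ 2) ^ l * K ^ ((K + 1) * w - l)) : ℕ) /
        (K : ℝ) ^ ((K + 1) * w) +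
      2 ^ V.len * ((S * ((4 * l) ^ l * w ^ (K + 1 - l)) : ℕ) / (w : ℝ) ^ (K + 1)) ^ ζ := by
  classical
  haveI : Nonempty (Fin w) := ⟨⟨0, by omega⟩⟩
  haveI : Nonempty (Fin K) := ⟨⟨0, by omega⟩⟩
  have cA : Fintype.card (Fin (K + 1) → Fin w) = w ^ (K + 1) := by simp
  have cZ : Fintype.card (Fin (K + 1) × Fin w → Fin K) = K ^ ((K + 1) * w) := by simp
  have h := proto (T := T) (A := Fin (K + 1) → Fin w)
    (Z := Fin (K + 1) × Fin w → Fin K) V (fun ω h => (hV ω h).1) hdec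
    (fun a i => pos (a i.1) i.2) (fun t z => at1 t (neg z)) ?_ ?_
    (αP := S * ((4 * l) ^ l * w ^ (K + 1 - l)))
    (βN := l ^ 2 * K ^ ((K + 1) * w - 1) + S * ((l ^ 2) ^ l * K ^ ((K + 1) * w - l)))
    (ζ := ζ) (by rw [cA]; exact hα) ?_
  · rw [cA, cZ] at h
    push_cast at h ⊢
    exact h
  · intro a t
    rintro ⟨z, hz⟩
    obtain ⟨i, j, hij, h1⟩ := Fintype.exists_ne_map_eq_of_card_lt
      (fun i : Fin (K + 1) => z (i, a t i)) (by simp)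
    refine hz ((i, a t i), (j, a t j)) ?_ h1
    simp only [pos, decide_eq_true_eq, and_true]
    intro h2
    exact hij (congrArg Prod.fst h2)
  · intro t z h
    refine h t ⟨z, ?_⟩
    intro e he
    simpa [at1, neg] using he
  · intro ω h t
    rcases block (m := K + 1) (K := K) hl hw (by omega) (by omega) t (hV ω h).2 with h1 | h1
    · left
      refine ⟨_, h1, ?_⟩
      intro a ha
      rw [mem_filter]
      refine ⟨mem_univ _, mono_of_computed (hV ω h).2 ?_ ha⟩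
      rintro ⟨t', e⟩ hi
      show (if t' = t then pos (a t) e else true) = true
      split_ifs with ht
      · rw [← ht]
        exact hi
      · rfl
    · right
      exact h1

attribute [local instance] Verifier.fin Verifier.ne

private theorem acc_le_one {ι : Type} (V : Verifier ι) (P : V.Prover) (x : ι → Bool) :
    V.accProb P x ≤ 1 := by
  classical
  have hN : (0:ℝ) < Nat.card V.Coin := by
    rw [Nat.card_eq_fintype_card]
    exact_mod_cast Fintype.card_pos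
  unfold Verifier.accProb
  rw [div_le_one hN, Nat.card_eq_fintype_card, Nat.card_eq_fintype_card]
  exact_mod_cast Fintype.card_subtype_le _

private theorem gap_le {ι : Type} (V : Verifier ι) {C : Set V.Prover} {L : Set (ι → Bool)}
    {c s : ℝ} (h : V.Decides C L c s) {x y : ι → Bool} (hx : x ∈ L) (hy : y ∉ L) : c - s ≤ 1 := by
  obtain ⟨P, hP, h1⟩ := h.1 x hx
  have h2 := h.2 y hy P hP
  have h3 := acc_le_one V P x
  have h4 : 0 ≤ V.accProb P y := by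
    unfold Verifier.accProb
    positivity
  linarith

private theorem num_w {K l S : ℕ} (hlK : l ≤ K + 1) (hS : S ≤ 2 ^ l) :
    S * ((4 * l) ^ l * (16 * l) ^ (K + 1 - l)) * 2 ^ l ≤ (16 * l) ^ (K + 1) := by
  calc S * ((4 * l) ^ l * (16 * l) ^ (K + 1 - l)) * 2 ^ l
      ≤ 2 ^ l * ((4 * l) ^ l * (16 * l) ^ (K + 1 - l)) * 2 ^ l :=
        Nat.mul_le_mul_right _ (Nat.mul_le_mul_right _ hS)
    _ = (16 * l) ^ l * (16 * l) ^ (K + 1 - l) := by
        have e : (16 * l : ℕ) = 2 * (4 * l) * 2 := by ring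
        have e2 : (16 * l : ℕ) ^ l = 2 ^ l * (4 * l) ^ l * 2 ^ l := by
          rw [e, mul_pow, mul_pow]
        rw [e2]
        ring
    _ = (16 * l) ^ (K + 1) := by
        rw [← pow_add]
        congr 1
        omega

private theorem num_K {K l S W : ℕ} {g : ℝ} (hg : 0 < g) (hg1 : g ≤ 1) (hl : 3 ≤ l)
    (hK : 8 * (l : ℝ) ^ 2 ≤ g * K) (hS : S ≤ 2 ^ l) (hW : l ≤ W) :
    ((l ^ 2 * K ^ (W - 1) + S * ((l ^ 2) ^ l * K ^ (W - l)) : ℕ) : ℝ) / (K : ℝ) ^ W ≤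
      3 * g / 8 := by
  have hl' : (3 : ℝ) ≤ l := by exact_mod_cast hl
  have hKp : (0 : ℝ) < K := by
    by_contra h
    push Not at h
    nlinarith [mul_nonneg hg.le (neg_nonneg.2 h)]
  have hKW : (0 : ℝ) < (K : ℝ) ^ W := pow_pos hKp W
  rw [div_le_iff₀ hKW]
  push_cast
  have e1 : (K : ℝ) ^ W = K * (K : ℝ) ^ (W - 1) := by
    rw [← pow_succ']
    congr 1
    omega
  have e2 : (K : ℝ) ^ W = (K : ℝ) ^ l * (K : ℝ) ^ (W - l) := by
    rw [← pow_add]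
    congr 1
    omega
  have h1 : (l : ℝ) ^ 2 * (K : ℝ) ^ (W - 1) ≤ g / 8 * (K : ℝ) ^ W := by
    rw [e1, ← mul_assoc]
    refine mul_le_mul_of_nonneg_right ?_ (pow_pos hKp _).le
    linarith
  have h2 : (S : ℝ) * (((l : ℝ) ^ 2) ^ l * (K : ℝ) ^ (W - l)) ≤ g / 4 * (K : ℝ) ^ W := by
    rw [e2]
    have h3 : (S : ℝ) * ((l : ℝ) ^ 2) ^ l ≤ g / 4 * (K : ℝ) ^ l := by
      calc (S : ℝ) * ((l : ℝ) ^ 2) ^ l ≤ 2 ^ l * ((l : ℝ) ^ 2) ^ l := by
            refine mul_le_mul_of_nonneg_right ?_ (by positivity)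
            exact_mod_cast hS
        _ = (2 * (l : ℝ) ^ 2) ^ l := by rw [mul_pow]
        _ ≤ (g / 4 * K) ^ l := by
            refine pow_le_pow_left₀ (by positivity) ?_ l
            linarith
        _ = (g / 4) ^ l * (K : ℝ) ^ l := mul_pow _ _ _
        _ ≤ (g / 4) * (K : ℝ) ^ l := by
            refine mul_le_mul_of_nonneg_right ?_ (by positivity)
            exact pow_le_of_le_one (by positivity) (by linarith) (by omega)
    calc (S : ℝ) * (((l : ℝ) ^ 2) ^ l * (K : ℝ) ^ (W - l))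
        = ((S : ℝ) * ((l : ℝ) ^ 2) ^ l) * (K : ℝ) ^ (W - l) := by ring
      _ ≤ (g / 4 * (K : ℝ) ^ l) * (K : ℝ) ^ (W - l) :=
          mul_le_mul_of_nonneg_right h3 (by positivity)
      _ = g / 4 * ((K : ℝ) ^ l * (K : ℝ) ^ (W - l)) := by ring
  linarith

private theorem num_v {q b n K l v : ℕ} {g : ℝ} (hg : 0 < g) (hg1 : g ≤ 1) (hl : 3 ≤ l)
    (hK : (K : ℝ) * g ≤ 8 * (l : ℝ) ^ 2 + g) (hn1 : 1 ≤ n)
    (hn : 2 ^ 16 * (l : ℝ) ^ 6 * n ≤ g ^ 2 * v) (hb : 6 * q * b ≤ v) (hq : 6 * q ≤ v) :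
    q * (2 * b + 1) + (2 * n + 1) +
      n * ((K + 1) * (16 * l) * (2 * K + 1) + ((K + 1) * (16 * l)) ^ 2) ≤ v := by
  have hl' : (3 : ℝ) ≤ l := by exact_mod_cast hl
  have hl2 : (9 : ℝ) ≤ (l : ℝ) ^ 2 := by nlinarith
  have hK0 : (0 : ℝ) ≤ K := Nat.cast_nonneg _
  have hv0 : (0 : ℝ) ≤ v := Nat.cast_nonneg _
  have hn0 : (0 : ℝ) ≤ n := Nat.cast_nonneg _
  have hn1' : (1 : ℝ) ≤ n := by exact_mod_cast hn1
  have h1 : g * (K + 1) ≤ 9 * (l : ℝ) ^ 2 := by nlinarith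
  have h2 : g * (2 * K + 1) ≤ 17 * (l : ℝ) ^ 2 := by nlinarith
  set x : ℝ := g * (K + 1) with hx
  set y : ℝ := g * (2 * K + 1) with hy
  have hx0 : 0 ≤ x := by positivity
  have hy0 : 0 ≤ y := by positivity
  have hl0 : (0 : ℝ) ≤ (l : ℝ) ^ 2 := by positivity
  have h3 : g ^ 2 * ((K + 1) * (16 * (l : ℝ)) * (2 * K + 1) +
      ((K + 1) * (16 * (l : ℝ))) ^ 2) ≤ 21552 * (l : ℝ) ^ 6 := by
    have e : g ^ 2 * ((K + 1) * (16 * (l : ℝ)) * (2 * K + 1) +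
        ((K + 1) * (16 * (l : ℝ))) ^ 2) =
        16 * (l : ℝ) * (x * y) + 256 * (l : ℝ) ^ 2 * (x * x) := by
      rw [hx, hy]; ring
    rw [e]
    have a1 : x * y ≤ 9 * (l : ℝ) ^ 2 * (17 * (l : ℝ) ^ 2) := mul_le_mul h1 h2 hy0 (by positivity)
    have a2 : x * x ≤ 9 * (l : ℝ) ^ 2 * (9 * (l : ℝ) ^ 2) := mul_le_mul h1 h1 hx0 (by positivity)
    have a3 : 16 * (l : ℝ) * (x * y) ≤ 2448 * (l : ℝ) ^ 5 := by
      calc _ ≤ 16 * (l : ℝ) * (9 * (l : ℝ) ^ 2 * (17 * (l : ℝ) ^ 2)) :=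
            mul_le_mul_of_nonneg_left a1 (by positivity)
        _ = _ := by ring
    have a4 : 256 * (l : ℝ) ^ 2 * (x * x) ≤ 20736 * (l : ℝ) ^ 6 := by
      calc _ ≤ 256 * (l : ℝ) ^ 2 * (9 * (l : ℝ) ^ 2 * (9 * (l : ℝ) ^ 2)) :=
            mul_le_mul_of_nonneg_left a2 (by positivity)
        _ = _ := by ring
    have a5 : 3 * (l : ℝ) ^ 5 ≤ (l : ℝ) ^ 6 := by
      calc 3 * (l : ℝ) ^ 5 ≤ l * (l : ℝ) ^ 5 :=
            mul_le_mul_of_nonneg_right hl' (by positivity)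
        _ = _ := by ring
    linarith
  have hl6 : (1 : ℝ) ≤ (l : ℝ) ^ 6 := one_le_pow₀ (by linarith)
  have hgv : g ^ 2 * v ≤ v := by
    have h1 : g ^ 2 ≤ 1 := by nlinarith
    calc g ^ 2 * (v : ℝ) ≤ 1 * v := mul_le_mul_of_nonneg_right h1 hv0
      _ = v := one_mul _
  have h4 : (n : ℝ) * ((K + 1) * (16 * (l : ℝ)) * (2 * K + 1) +
      ((K + 1) * (16 * (l : ℝ))) ^ 2) ≤ v / 3 := by
    have a1 : g ^ 2 * ((n : ℝ) * ((K + 1) * (16 * (l : ℝ)) * (2 * K + 1) +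
        ((K + 1) * (16 * (l : ℝ))) ^ 2)) ≤ g ^ 2 * (v / 3) := by
      calc _ = n * (g ^ 2 * ((K + 1) * (16 * (l : ℝ)) * (2 * K + 1) +
            ((K + 1) * (16 * (l : ℝ))) ^ 2)) := by ring
        _ ≤ n * (21552 * (l : ℝ) ^ 6) := mul_le_mul_of_nonneg_left h3 hn0
        _ ≤ g ^ 2 * (v / 3) := by
            have : 0 ≤ (n : ℝ) * (l : ℝ) ^ 6 := by positivity
            linarith
    exact le_of_mul_le_mul_left a1 (by positivity : (0 : ℝ) < g ^ 2)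
  have h5 : (q : ℝ) * (2 * b + 1) ≤ v / 2 := by
    have b1 : (6 : ℝ) * q * b ≤ v := by exact_mod_cast hb
    have b2 : (6 : ℝ) * q ≤ v := by exact_mod_cast hq
    linarith
  have h6 : 2 * (n : ℝ) + 1 ≤ v / 6 := by
    have a1 : 2 ^ 16 * 1 * (n : ℝ) ≤ 2 ^ 16 * (l : ℝ) ^ 6 * n :=
      mul_le_mul_of_nonneg_right (mul_le_mul_of_nonneg_left hl6 (by norm_num)) hn0
    linarith
  have h7 : ((q * (2 * b + 1) + (2 * n + 1) +
      n * ((K + 1) * (16 * l) * (2 * K + 1) + ((K + 1) * (16 * l)) ^ 2) : ℕ) : ℝ) ≤ v := by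
    push_cast
    linarith
  exact_mod_cast h7

theorem lower_q {q v l S : ℕ} (hq : 2 ≤ q) (V : Verifier (AC0IP.Clause (q + 1) v))
    (hV : MonotoneSmall V S) {C : Set V.Prover} {c s : ℝ}
    (hdec : V.Decides C (UNSAT (q + 1) v) c s) (hl : 3 ≤ l) (hS : S ≤ 2 ^ l) :
    (c - s) ^ 3 * (v : ℝ) ^ (q + 1) ≤
      2 ^ 19 * (12 * (q : ℝ)) ^ q * (l : ℝ) ^ 5 * (V.len + l * (v : ℝ) ^ q) := by
  set g := c - s with hgd
  have hv0 : (0 : ℝ) ≤ v := Nat.cast_nonneg _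
  have hL0 : (0 : ℝ) ≤ V.len := Nat.cast_nonneg _
  have hl' : (3 : ℝ) ≤ l := by exact_mod_cast hl
  have hq' : (2 : ℝ) ≤ q := by exact_mod_cast hq
  rcases le_or_gt g 0 with hg | hg
  · have h1 : g ^ 3 * (v : ℝ) ^ (q + 1) ≤ 0 := by
      have h2 : g ^ 3 ≤ 0 := by
        have : g ^ 3 = g * g ^ 2 := by ring
        rw [this]
        exact mul_nonpos_of_nonpos_of_nonneg hg (sq_nonneg g)
      exact mul_nonpos_of_nonpos_of_nonneg h2 (by positivity)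
    exact h1.trans (by positivity)
  rcases Nat.eq_zero_or_pos v with hv1 | hvpos
  · have hz : (v : ℝ) = 0 := by exact_mod_cast hv1
    have hz2 : g ^ 3 * (v : ℝ) ^ (q + 1) = 0 := by
      rw [hz, zero_pow (by omega), mul_zero]
    rw [hz2]
    positivity
  have hvp : (1 : ℝ) ≤ v := by exact_mod_cast hvpos
  have hg1 : g ≤ 1 := by
    refine gap_le V hdec (x := fun _ => true) (y := fun _ => false) ?_ ?_
    · rintro ⟨y, hy⟩
      obtain ⟨j, hj⟩ := hy (fun _ => (⟨0, hvpos⟩, !(y ⟨0, hvpos⟩))) rfl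
      simp at hj
    · intro h
      exact h ⟨fun _ => false, fun cl hcl => absurd hcl (by simp)⟩
  have hg2 : g ^ 2 ≤ 1 := by nlinarith
  have hgv : g ^ 2 * v ≤ v := by
    calc g ^ 2 * (v : ℝ) ≤ 1 * v := mul_le_mul_of_nonneg_right hg2 hv0
      _ = v := one_mul _
  have hvq0 : (0 : ℝ) ≤ (v : ℝ) ^ q := by positivity
  -- a bound for the right side
  have hR : ∀ y : ℝ, 0 ≤ y → y ≤ 2 ^ 19 * (12 * (q : ℝ)) ^ q * (l : ℝ) ^ 6 →
      y * (v : ℝ) ^ q ≤ 2 ^ 19 * (12 * (q : ℝ)) ^ q * (l : ℝ) ^ 5 *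
        (V.len + l * (v : ℝ) ^ q) := by
    intro y hy0 hy
    calc y * (v : ℝ) ^ q ≤ 2 ^ 19 * (12 * (q : ℝ)) ^ q * (l : ℝ) ^ 6 * (v : ℝ) ^ q :=
          mul_le_mul_of_nonneg_right hy hvq0
      _ = 2 ^ 19 * (12 * (q : ℝ)) ^ q * (l : ℝ) ^ 5 * (l * (v : ℝ) ^ q) := by ring
      _ ≤ _ := mul_le_mul_of_nonneg_left (by linarith) (by positivity)
  have h12 : (1 : ℝ) ≤ (12 * (q : ℝ)) ^ q := one_le_pow₀ (by linarith)
  have h12q : 12 * (q : ℝ) ≤ (12 * (q : ℝ)) ^ q := le_self_pow₀ (by linarith) (by omega)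
  have hl6 : (1 : ℝ) ≤ (l : ℝ) ^ 6 := one_le_pow₀ (by linarith)
  rcases lt_or_ge (g ^ 2 * (v : ℝ)) (2 ^ 16 * (l : ℝ) ^ 6) with hsm | hv
  · -- the gap is small
    have h1 : g ^ 3 * (v : ℝ) ^ (q + 1) = (g * (g ^ 2 * v)) * (v : ℝ) ^ q := by ring
    rw [h1]
    refine hR _ (by positivity) ?_
    calc g * (g ^ 2 * v) ≤ 1 * (2 ^ 16 * (l : ℝ) ^ 6) :=
          mul_le_mul hg1 hsm.le (by positivity) (by norm_num)
      _ ≤ 2 ^ 19 * 1 * (l : ℝ) ^ 6 := by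
          have : 0 ≤ (l : ℝ) ^ 6 := by positivity
          linarith
      _ ≤ 2 ^ 19 * (12 * (q : ℝ)) ^ q * (l : ℝ) ^ 6 := by
          refine mul_le_mul_of_nonneg_right ?_ (by positivity)
          linarith
  have hl1 : (2 : ℝ) ^ 16 * (l : ℝ) ≤ g ^ 2 * v := by
    refine le_trans ?_ hv
    refine mul_le_mul_of_nonneg_left ?_ (by positivity)
    exact le_self_pow₀ (by linarith) (by norm_num)
  rcases lt_or_ge v (6 * q) with hvq | hvq
  · -- few variables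
    have h1 : (v : ℝ) ≤ 6 * q := by exact_mod_cast hvq.le
    have h2 : g ^ 3 * (v : ℝ) ^ (q + 1) = (g * (g ^ 2 * v)) * (v : ℝ) ^ q := by ring
    rw [h2]
    refine hR _ (by positivity) ?_
    calc g * (g ^ 2 * v) ≤ 1 * (6 * q) :=
          mul_le_mul hg1 (hgv.trans h1) (by positivity) (by norm_num)
      _ ≤ 2 ^ 19 * (12 * (q : ℝ)) ^ q * 1 := by linarith
      _ ≤ 2 ^ 19 * (12 * (q : ℝ)) ^ q * (l : ℝ) ^ 6 :=
          mul_le_mul_of_nonneg_left hl6 (by positivity)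
  -- parameters
  set b := v / (6 * q) with hb
  have hb1 : 1 ≤ b := by
    rw [hb, Nat.one_le_div_iff (by omega)]
    exact hvq
  have hb2 : 6 * q * b ≤ v := Nat.mul_div_le v (6 * q)
  have hb3 : v ≤ 12 * q * b := by
    have h1 : v < 6 * q * (b + 1) := Nat.lt_mul_div_succ v (by omega)
    have h2 : 6 * q ≤ 6 * q * b := Nat.le_mul_of_pos_right _ hb1
    nlinarith
  set n := ⌊g ^ 2 * v / (2 ^ 16 * (l : ℝ) ^ 6)⌋₊ with hn
  have hX : (0 : ℝ) < 2 ^ 16 * (l : ℝ) ^ 6 := by positivity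
  have hn1 : 1 ≤ n := by
    rw [hn, Nat.one_le_floor_iff, le_div_iff₀ hX, one_mul]
    exact hv
  have hn1' : (1 : ℝ) ≤ n := by exact_mod_cast hn1
  have hn2 : 2 ^ 16 * (l : ℝ) ^ 6 * n ≤ g ^ 2 * v := by
    have := Nat.floor_le (a := g ^ 2 * v / (2 ^ 16 * (l : ℝ) ^ 6)) (by positivity)
    rw [le_div_iff₀ hX, ← hn] at this
    linarith
  have hn3 : g ^ 2 * v ≤ 2 ^ 17 * (l : ℝ) ^ 6 * n := by
    have h1 := Nat.lt_floor_add_one (g ^ 2 * v / (2 ^ 16 * (l : ℝ) ^ 6))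
    rw [div_lt_iff₀ hX] at h1
    have h2 : ((⌊g ^ 2 * v / (2 ^ 16 * (l : ℝ) ^ 6)⌋₊ : ℝ) + 1) * (2 ^ 16 * (l : ℝ) ^ 6) ≤
        (2 * n) * (2 ^ 16 * (l : ℝ) ^ 6) :=
      mul_le_mul_of_nonneg_right (by rw [← hn]; linarith) hX.le
    linarith
  set K := ⌈8 * (l : ℝ) ^ 2 / g⌉₊ with hKd
  have hK1 : 8 * (l : ℝ) ^ 2 ≤ g * K := by
    have := Nat.le_ceil (8 * (l : ℝ) ^ 2 / g)
    rw [div_le_iff₀ hg] at this
    linarith
  have hK2 : (K : ℝ) * g ≤ 8 * (l : ℝ) ^ 2 + g := by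
    have h1 : (K : ℝ) < 8 * (l : ℝ) ^ 2 / g + 1 := Nat.ceil_lt_add_one (by positivity)
    have h2 : (K : ℝ) * g ≤ (8 * (l : ℝ) ^ 2 / g + 1) * g :=
      mul_le_mul_of_nonneg_right h1.le hg.le
    rw [add_mul, div_mul_cancel₀ _ hg.ne', one_mul] at h2
    exact h2
  have hKl : 8 * l ≤ K := by
    have h1 : (8 : ℝ) * l ≤ K := by
      have a1 : g * K ≤ 1 * K := mul_le_mul_of_nonneg_right hg1 (Nat.cast_nonneg _)
      nlinarith
    exact_mod_cast h1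
  have hcard := num_v hg hg1 hl hK2 hn1 hn2 hb2 hvq
  obtain ⟨red, hred, hred2⟩ := red_exists q b n K v (Fin (K + 1) × Fin (16 * l)) hq (by
    rw [Fintype.card_prod, Fintype.card_fin, Fintype.card_fin]
    exact hcard)
  have hset : {x | red x ∈ UNSAT (q + 1) v} = {x | ∀ t, ¬ Colb K (fun e => x (t, e))} := by
    ext x
    exact hred2 x
  have hdec' := comp_decides V red C _ c s hdec
  rw [hset] at hdec'
  have hcV : MonotoneSmall (comp V red) S := by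
    intro ω h
    exact ⟨fun x x' => (hV ω h).1 _ _, mono_comp red hred S _ (hV ω h).2⟩
  have hnw := num_w (K := K) (l := l) (S := S) (by omega) hS
  have hα : S * ((4 * l) ^ l * (16 * l) ^ (K + 1 - l)) ≤ (16 * l) ^ (K + 1) :=
    (Nat.le_mul_of_pos_right _ (by positivity)).trans hnw
  haveI : Nonempty (Fin b) := ⟨⟨0, hb1⟩⟩
  haveI : Nonempty (Fin n) := ⟨⟨0, hn1⟩⟩
  have cT : (Fintype.card ((Fin q → Fin b) × Fin n) : ℝ) = (b : ℝ) ^ q * n := by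
    rw [Fintype.card_prod, Fintype.card_fun, Fintype.card_fin, Fintype.card_fin,
      Fintype.card_fin]
    push_cast
    ring
  set B : ℝ := (b : ℝ) ^ q * n with hB
  set ζ := ⌊g * B / 4⌋₊ with hζd
  have hBp : (0 : ℝ) < B := by
    have h1 : (0 : ℝ) < b := by exact_mod_cast hb1
    have h2 : (0 : ℝ) < n := by linarith
    positivity
  have hmain := blocks (T := (Fin q → Fin b) × Fin n) (ζ := ζ) hl (by omega) (by omega)
    (comp V red) hcV hdec' hα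
  have hlen : (comp V red).len = V.len := rfl
  rw [hlen, cT] at hmain
  have hW : l ≤ (K + 1) * (16 * l) := by
    have h1 : l ≤ 16 * l := by omega
    exact h1.trans (Nat.le_mul_of_pos_left _ (by omega))
  have hnK := num_K (W := (K + 1) * (16 * l)) hg hg1 hl hK1 hS hW
  have hζ1 : (ζ : ℝ) / B ≤ g / 4 := by
    rw [div_le_iff₀ hBp]
    have := Nat.floor_le (a := g * B / 4) (by positivity)
    linarith
  have hwp : (0 : ℝ) < ((16 * l : ℕ) : ℝ) ^ (K + 1) := by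
    have : (0 : ℝ) < ((16 * l : ℕ) : ℝ) := by
      push_cast
      linarith
    positivity
  have hratio : ((S * ((4 * l) ^ l * (16 * l) ^ (K + 1 - l)) : ℕ) : ℝ) /
      ((16 * l : ℕ) : ℝ) ^ (K + 1) ≤ 1 / 2 ^ l := by
    rw [div_le_div_iff₀ hwp (by positivity), one_mul]
    exact_mod_cast hnw
  have hpow : (((S * ((4 * l) ^ l * (16 * l) ^ (K + 1 - l)) : ℕ) : ℝ) /
      ((16 * l : ℕ) : ℝ) ^ (K + 1)) ^ ζ ≤ 1 / 2 ^ (l * ζ) := by
    calc _ ≤ (1 / 2 ^ l : ℝ) ^ ζ := pow_le_pow_left₀ (by positivity) hratio ζ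
      _ = 1 / 2 ^ (l * ζ) := by rw [div_pow, one_pow, pow_mul]
  have h1 : 3 * g / 8 ≤ 2 ^ V.len * (1 / 2 ^ (l * ζ)) := by
    have h2 : (2 : ℝ) ^ V.len * (((S * ((4 * l) ^ l * (16 * l) ^ (K + 1 - l)) : ℕ) :
        ℝ) / ((16 * l : ℕ) : ℝ) ^ (K + 1)) ^ ζ ≤ 2 ^ V.len * (1 / 2 ^ (l * ζ)) :=
      mul_le_mul_of_nonneg_left hpow (by positivity)
    linarith
  have h2 : (2 : ℝ) ^ (l * ζ) * (3 * g / 8) ≤ 2 ^ V.len := by
    rw [mul_one_div, le_div_iff₀ (by positivity)] at h1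
    linarith
  -- the gap is not too small
  have h3 : 1 ≤ (2 : ℝ) ^ (v / 2) * (3 * g / 8) := by
    have a1 : (v : ℝ) ≤ 2 * 2 ^ (v / 2) := by
      have b1 : v / 2 < 2 ^ (v / 2) := Nat.lt_two_pow_self
      have b2 : v ≤ 2 * 2 ^ (v / 2) := by omega
      exact_mod_cast b2
    have a2 : 2 ^ 16 ≤ g * v := by
      have b1 : g ^ 2 * v ≤ g * v := by
        have : g ^ 2 ≤ g := by nlinarith
        exact mul_le_mul_of_nonneg_right this hv0
      linarith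
    have a3 : g * v ≤ g * (2 * 2 ^ (v / 2)) := mul_le_mul_of_nonneg_left a1 hg.le
    linarith
  have h4 : (2 : ℝ) ^ (l * ζ) ≤ 2 ^ (V.len + v / 2) := by
    calc (2 : ℝ) ^ (l * ζ) = 2 ^ (l * ζ) * 1 := (mul_one _).symm
      _ ≤ 2 ^ (l * ζ) * (2 ^ (v / 2) * (3 * g / 8)) :=
          mul_le_mul_of_nonneg_left h3 (by positivity)
      _ = (2 ^ (l * ζ) * (3 * g / 8)) * 2 ^ (v / 2) := by ring
      _ ≤ 2 ^ V.len * 2 ^ (v / 2) := mul_le_mul_of_nonneg_right h2 (by positivity)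
      _ = 2 ^ (V.len + v / 2) := (pow_add _ _ _).symm
  have h5 : l * ζ ≤ V.len + v / 2 := (pow_le_pow_iff_right₀ (by norm_num)).1 h4
  have h6 : (l : ℝ) * ζ ≤ V.len + v / 2 := by
    have a1 : ((l * ζ : ℕ) : ℝ) ≤ ((V.len + v / 2 : ℕ) : ℝ) := by exact_mod_cast h5
    push_cast at a1
    have a2 : ((v / 2 : ℕ) : ℝ) ≤ (v : ℝ) / 2 := Nat.cast_div_le
    linarith
  have h7 : g * B / 4 < ζ + 1 := Nat.lt_floor_add_one _
  have h8 : l * (g * B) ≤ 4 * (V.len + v) := by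
    have a1 : (l : ℝ) * (g * B / 4) ≤ l * (ζ + 1) :=
      mul_le_mul_of_nonneg_left h7.le (by positivity)
    have a2 : 2 * (l : ℝ) ≤ v := by linarith
    linarith
  have h9 : (v : ℝ) ≤ 12 * q * b := by exact_mod_cast hb3
  have h10 : (v : ℝ) ^ q ≤ (12 * (q : ℝ)) ^ q * (b : ℝ) ^ q := by
    rw [← mul_pow]
    exact pow_le_pow_left₀ hv0 h9 q
  have h11 : (v : ℝ) ≤ l * (v : ℝ) ^ q := by
    calc (v : ℝ) ≤ (v : ℝ) ^ q := le_self_pow₀ hvp (by omega)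
      _ = 1 * (v : ℝ) ^ q := (one_mul _).symm
      _ ≤ l * (v : ℝ) ^ q := mul_le_mul_of_nonneg_right (by linarith) hvq0
  calc g ^ 3 * (v : ℝ) ^ (q + 1) = g * ((g ^ 2 * v) * (v : ℝ) ^ q) := by ring
    _ ≤ g * ((2 ^ 17 * (l : ℝ) ^ 6 * n) * ((12 * (q : ℝ)) ^ q * (b : ℝ) ^ q)) := by
        refine mul_le_mul_of_nonneg_left ?_ hg.le
        exact mul_le_mul hn3 h10 hvq0 (by positivity)
    _ = 2 ^ 17 * (12 * (q : ℝ)) ^ q * (l : ℝ) ^ 5 * (l * (g * B)) := by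
        rw [hB]; ring
    _ ≤ 2 ^ 17 * (12 * (q : ℝ)) ^ q * (l : ℝ) ^ 5 * (4 * (V.len + v)) :=
        mul_le_mul_of_nonneg_left h8 (by positivity)
    _ = 2 ^ 19 * (12 * (q : ℝ)) ^ q * (l : ℝ) ^ 5 * (V.len + v) := by ring
    _ ≤ 2 ^ 19 * (12 * (q : ℝ)) ^ q * (l : ℝ) ^ 5 * (V.len + l * (v : ℝ) ^ q) :=
        mul_le_mul_of_nonneg_left (by linarith) (by positivity)

theorem lower {k : ℕ} (hk : 3 ≤ k) (v S : ℕ) (V : Verifier (AC0IP.Clause k v))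
    (hV : MonotoneSmall V S) {C : Set V.Prover} {c s : ℝ}
    (hdec : V.Decides C (UNSAT k v) c s) :
    (c - s) ^ 3 * (v : ℝ) ^ k ≤ 2 ^ 19 * (12 * (k : ℝ)) ^ (k - 1) *
      (Nat.log 2 S + 3 : ℕ) ^ 5 * (V.len + (Nat.log 2 S + 3 : ℕ) * (v : ℝ) ^ (k - 1)) := by
  obtain ⟨q, rfl⟩ : ∃ q, k = q + 1 := ⟨k - 1, by omega⟩
  have hS : S ≤ 2 ^ (Nat.log 2 S + 3) := by
    calc S ≤ 2 ^ (Nat.log 2 S + 1) := (Nat.lt_pow_succ_log_self (by norm_num) S).le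
      _ ≤ 2 ^ (Nat.log 2 S + 3) := Nat.pow_le_pow_right (by norm_num) (by omega)
  have h := lower_q (q := q) (by omega) V hV hdec (l := Nat.log 2 S + 3) (by omega) hS
  refine h.trans ?_
  rw [Nat.add_sub_cancel]
  refine mul_le_mul_of_nonneg_right (mul_le_mul_of_nonneg_right (mul_le_mul_of_nonneg_left
    (pow_le_pow_left₀ (by positivity) ?_ q) (by positivity)) (by positivity)) (by positivity)
  push_cast
  linarith

end Pool.Agent.MonoIP
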