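import Pool.Agent.Lib.MonoIP.Conv

/-!
# One block: cliques against multipartite graphs
-/

namespace Pool.Agent.MonoIP

open Pool.Agent.AC0IP Finset

/-- the clique on the graph of `a` -/
def pos {m w : ℕ} (a : Fin m → Fin w) (e : (Fin m × Fin w) × (Fin m × Fin w)) : Bool :=
  decide (e.1 ≠ e.2 ∧ a e.1.1 = e.1.2 ∧ a e.2.1 = e.2.2)

/-- the complete multipartite graph of the colouring `z` -/
def neg {W : Type} {K : ℕ} (z : W → Fin K) (e : W × W) : Bool := decide (z e.1 ≠ z e.2)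

/-- block `σ₀` is `g`, all other blocks are full -/
def at1 {T E : Type} [DecidableEq T] (σ₀ : T) (g : E → Bool) : T × E → Bool :=
  fun i => if i.1 = σ₀ then g i.2 else true

section

variable {T : Type} [DecidableEq T] {m w K l : ℕ}

private abbrev Mo (m w l : ℕ) : Type := {X : Finset (Fin m × Fin w) // X.card < l}
private abbrev Co (m w l : ℕ) : Type := {ρ : Fin m × Fin w → Fin m × Fin w // rk ρ < l}

private theorem dom_of_le {D : Set (Mo m w l)} {C : Set (Co m w l)}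
    (h : ∀ X ∈ D, ∀ c ∈ C, Le X.1 c.1) :
    Dom (fun (X : Mo m w l) a => mA X.1 a) (fun (X : Mo m w l) (z : Fin m × Fin w → Fin K) =>
      mZ X.1 z) (fun (c : Co m w l) a => cA c.1 a) (fun (c : Co m w l) z => cZ c.1 z) D C := by
  intro X hX c hc
  obtain ⟨u, hu, u', hu', h1, h2⟩ := h X hX c hc
  refine ⟨fun a ha => ⟨u, u', h1, h2, ha u hu, ha u' hu'⟩, fun z hz hc' => ?_⟩
  exact hz u hu u' hu' h1 (hc' u u' h2)

private theorem h0 (hl : 3 ≤ l) (σ₀ : T) (f : BF (T × ((Fin m × Fin w) × (Fin m × Fin w))))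
    (hf : IsBit f) : ∃ (D : Set (Mo m w l)) (C : Set (Co m w l)),
      Good (fun a => at1 σ₀ (pos a)) (fun z : Fin m × Fin w → Fin K => at1 σ₀ (neg z))
        (fun X a => mA X.1 a) (fun X z => mZ X.1 z) (fun c a => cA c.1 a) (fun c z => cZ c.1 z)
        f D C ∅ ∅ := by
  have htrue : ∀ f : BF (T × ((Fin m × Fin w) × (Fin m × Fin w))),
      (∀ z : Fin m × Fin w → Fin K, f (at1 σ₀ (neg z)) = true) →
      ∃ (D : Set (Mo m w l)) (C : Set (Co m w l)),
      Good (fun a => at1 σ₀ (pos a)) (fun z : Fin m × Fin w → Fin K => at1 σ₀ (neg z))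
        (fun X a => mA X.1 a) (fun X z => mZ X.1 z) (fun c a => cA c.1 a) (fun c z => cZ c.1 z)
        f D C ∅ ∅ := by
    intro f hz
    refine ⟨{⟨∅, by simp; omega⟩}, ∅, dom_of_le (by simp), ?_, ?_⟩
    · intro a _ _
      exact ⟨⟨∅, by simp; omega⟩, rfl, fun u hu => absurd hu (notMem_empty _)⟩
    · intro z _ h
      rw [hz] at h
      exact absurd h (by decide)
  have hfalse : ∀ f : BF (T × ((Fin m × Fin w) × (Fin m × Fin w))),
      (∀ a : Fin m → Fin w, f (at1 σ₀ (pos a)) = false) →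
      ∃ (D : Set (Mo m w l)) (C : Set (Co m w l)),
      Good (fun a => at1 σ₀ (pos a)) (fun z : Fin m × Fin w → Fin K => at1 σ₀ (neg z))
        (fun X a => mA X.1 a) (fun X z => mZ X.1 z) (fun c a => cA c.1 a) (fun c z => cZ c.1 z)
        f D C ∅ ∅ := by
    intro f ha
    refine ⟨∅, {⟨id, by rw [rk_id]; omega⟩}, dom_of_le (by simp), ?_, ?_⟩
    · intro a _ h
      rw [ha] at h
      exact absurd h (by decide)
    · intro z _ _
      refine ⟨⟨id, by rw [rk_id]; omega⟩, rfl, fun hc => hc fun x y hxy => ?_⟩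
      rw [show x = y from hxy]
  rcases hf with ⟨c, hc⟩ | ⟨⟨σ, e⟩, hi⟩
  · cases c with
    | true => exact htrue f fun z => hc _
    | false => exact hfalse f fun a => hc _
  by_cases hσ : σ = σ₀
  · subst hσ
    by_cases he : e.1 = e.2
    · refine hfalse f fun a => ?_
      rw [hi]
      simp [at1, pos, he]
    · have hX : ({e.1, e.2} : Finset (Fin m × Fin w)).card < l := by
        rw [card_pair he]
        omega
      have hρ : rk (mrg (id : Fin m × Fin w → Fin m × Fin w) e.1 e.2) < l :=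
        (rk_mrg_id e.1 e.2).trans_lt (by omega)
      refine ⟨{⟨{e.1, e.2}, hX⟩}, {⟨mrg id e.1 e.2, hρ⟩}, dom_of_le ?_, ?_, ?_⟩
      · intro X hX' c hc'
        rw [Set.mem_singleton_iff] at hX' hc'
        subst hX' hc'
        refine ⟨e.1, by simp, e.2, by simp, he, ?_⟩
        simp [mrg]
      · intro a _ h
        rw [hi] at h
        simp only [at1, pos, if_true, decide_eq_true_eq] at h
        refine ⟨_, rfl, ?_⟩
        intro u hu
        rw [mem_insert, mem_singleton] at hu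
        rcases hu with rfl | rfl
        · exact h.2.1
        · exact h.2.2
      · intro z _ h
        rw [hi] at h
        simp only [at1, neg, if_true, decide_eq_false_iff_not, not_not] at h
        refine ⟨_, rfl, fun hc => hc ?_⟩
        intro x y hxy
        unfold mrg at hxy
        simp only [id] at hxy
        split_ifs at hxy with c1 c2 c2
        · rw [c1, c2]
        · rw [c1, h, hxy]
        · rw [c2, h, hxy]
        · rw [hxy]
  · refine htrue f fun z => ?_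
    rw [hi]
    simp [at1, hσ]

open Classical in
theorem block {S : ℕ} (hl : 3 ≤ l) (hw : 2 * l ≤ w) (hm : l + 1 ≤ m) (hK : 1 ≤ K) (σ₀ : T)
    {f : BF (T × ((Fin m × Fin w) × (Fin m × Fin w)))} (hf : MonoComputed S f) :
    (univ.filter (fun a : Fin m → Fin w => f (at1 σ₀ (pos a)) = true)).card ≤
      S * ((4 * l) ^ l * w ^ (m - l)) ∨
    (univ.filter (fun z : Fin m × Fin w → Fin K => f (at1 σ₀ (neg z)) = false)).card ≤
      l ^ 2 * K ^ (m * w - 1) + S * ((l ^ 2) ^ l * K ^ (m * w - l)) := by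
  have hcardW : Fintype.card (Fin m × Fin w) = m * w := by
    rw [Fintype.card_prod, Fintype.card_fin, Fintype.card_fin]
  have H1 : ∀ C : Set (Co m w l), ∃ (D : Set (Mo m w l)) (E : Finset (Fin m → Fin w)),
      E.card ≤ (4 * l) ^ l * w ^ (m - l) ∧
      Dom (fun X a => mA X.1 a) (fun X (z : Fin m × Fin w → Fin K) => mZ X.1 z)
        (fun c a => cA c.1 a) (fun c z => cZ c.1 z) D C ∧
      ∀ a, a ∉ E → (∀ c ∈ C, cA c.1 a) → ∃ X ∈ D, mA X.1 a := by
    intro C
    obtain ⟨E, hE, hE'⟩ := convP (r := l) (s := l) (by omega) hw hm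
      {ρ | ∃ c ∈ C, c.1 = ρ} (by
        rintro ρ ⟨c, -, rfl⟩
        exact c.2.le)
    refine ⟨{X | ∀ c ∈ C, Le X.1 c.1}, E, hE, dom_of_le fun X hX c hc => hX c hc, ?_⟩
    intro a ha hC
    obtain ⟨Y, h1, h2, h3⟩ := hE' a ha (by
      rintro ρ ⟨c, hc, rfl⟩
      exact hC c hc)
    exact ⟨⟨Y, h1⟩, fun c hc => h2 c.1 ⟨c, hc, rfl⟩, h3⟩
  have H2 : ∀ D : Set (Mo m w l), ∃ (C : Set (Co m w l)) (E : Finset (Fin m × Fin w → Fin K)),
      E.card ≤ (l ^ 2) ^ l * K ^ (m * w - l) ∧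
      Dom (fun X a => mA X.1 a) (fun X (z : Fin m × Fin w → Fin K) => mZ X.1 z)
        (fun c a => cA c.1 a) (fun c z => cZ c.1 z) D C ∧
      ∀ z, z ∉ E → (∀ X ∈ D, ¬ mZ X.1 z) → ∃ c ∈ C, ¬ cZ c.1 z := by
    intro D
    obtain ⟨E, hE, hE'⟩ := convN (K := K) (s := l) (Q := l ^ 2) hK
      (Nat.one_le_pow _ _ (by omega)) {Y | ∃ X ∈ D, X.1 = Y} (by
        rintro Y ⟨X, -, rfl⟩
        exact Nat.pow_le_pow_left X.2.le 2)
    rw [hcardW] at hE
    refine ⟨{c | ∀ X ∈ D, Le X.1 c.1}, E, hE, dom_of_le fun X hX c hc => hc X hX, ?_⟩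
    intro z hz hD
    obtain ⟨σ, h1, h2, h3⟩ := hE' z hz (by
      rintro Y ⟨X, hX, rfl⟩
      exact hD X hX)
    exact ⟨⟨σ, h1⟩, fun X hX => h2 X.1 ⟨X, hX, rfl⟩, h3⟩
  rcases approx (fun f hf => h0 hl σ₀ f hf) H1 H2 hf with h | ⟨X, hX⟩
  · left
    exact h
  · right
    refine hX.trans (Nat.add_le_add_right ?_ _)
    refine (notInj_card X.1 hK).trans ?_
    rw [hcardW]
    exact Nat.mul_le_mul_right _ (Nat.pow_le_pow_left X.2.le 2)

end

end Pool.Agent.MonoIP
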