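import Pool.Agent.Lib.MonoIP.Defs

/-!
# Monotone protocols for `k`-SAT and for arbitrary monotone languages
-/

namespace Pool.Agent.MonoIP

open Pool.Agent.AC0IP

/-- a verifier without coins and messages -/
private abbrev sv {ι : Type} (n : ℕ) (verd : List Bool → BF ι) : Verifier ι where
  Coin := Unit
  Pub := Unit
  len := n
  pub := fun _ _ => ()
  ask := fun _ _ _ => false
  verdict := fun _ h => verd h

private theorem sv_run {ι : Type} (n : ℕ) (verd : List Bool → BF ι) (y : ℕ → Bool)
    (x : ι → Bool) (k : ℕ) :
    ((sv n verd).run (fun m => y (m.length - 1)) () x k).1.length = k ∧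
      ((sv n verd).run (fun m => y (m.length - 1)) () x k).2 =
        ((List.range k).map y).reverse := by
  induction k with
  | zero => exact ⟨rfl, rfl⟩
  | succ k ih =>
    obtain ⟨h1, h2⟩ := ih
    set R := (sv n verd).run (fun m => y (m.length - 1)) () x k with hR
    constructor
    · change (((), false) :: R.1).length = k + 1
      rw [List.length_cons, h1]
    · change y ((((), false) :: R.1).length - 1) :: R.2 = _
      rw [List.length_cons, h1, h2, List.range_succ, List.map_append, List.reverse_append]
      simp

private theorem sv_acc {ι : Type} (n : ℕ) (verd : List Bool → BF ι) (P : (sv n verd).Prover)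
    (x : ι → Bool) :
    (sv n verd).accProb P x = if (sv n verd).accepts P () x = true then 1 else 0 := by
  unfold Verifier.accProb
  have hc : Nat.card (sv n verd).Coin = 1 := by
    change Nat.card Unit = 1
    simp
  rw [hc]
  split_ifs with h
  · have : Nat.card {ω : (sv n verd).Coin // (sv n verd).accepts P ω x = true} = 1 := by
      have : Unique {ω : (sv n verd).Coin // (sv n verd).accepts P ω x = true} :=
        { default := ⟨(), h⟩
          uniq := fun a => Subtype.ext rfl }
      exact Nat.card_unique
    rw [this]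
    norm_num
  · have : Nat.card {ω : (sv n verd).Coin // (sv n verd).accepts P ω x = true} = 0 := by
      have : IsEmpty {ω : (sv n verd).Coin // (sv n verd).accepts P ω x = true} :=
        ⟨fun a => h a.2⟩
      exact Nat.card_of_isEmpty
    rw [this]
    norm_num

private theorem computed_bit {ι : Type} {f : BF ι} (h : IsBit f) : MonoComputed 1 f :=
  ⟨fun _ => 0, fun _ _ => false, fun _ => ⟨∅, by simp, Or.inl fun x => by simp⟩, Or.inl h⟩

private theorem computed_and {ι : Type} {f : BF ι} (A : Set (BF ι)) (hA : ∀ f ∈ A, IsBit f)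
    (h : ∀ x, f x = true ↔ ∀ f' ∈ A, f' x = true) : MonoComputed 1 f :=
  ⟨fun _ => 0, fun _ => f, fun _ => ⟨A, fun f' hf' => Or.inl (hA f' hf'), Or.inr h⟩,
    Or.inr ⟨0, fun _ => rfl⟩⟩

/-- the word given by a list of answers -/
private def wd {n : ℕ} (h : List Bool) (i : Fin n) : Bool := h.reverse.getD i false

private theorem wd_run {n : ℕ} (y : ℕ → Bool) (i : Fin n) :
    wd (((List.range n).map y).reverse) i = y i := by
  unfold wd
  rw [List.reverse_reverse, List.getD_eq_getElem?_getD, List.getElem?_map,
    List.getElem?_range i.2]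
  rfl

private theorem sv_decides {ι : Type} (n : ℕ) (verd : List Bool → BF ι) (L : Set (ι → Bool))
    (h1 : ∀ x ∈ L, ∃ y : ℕ → Bool, verd (((List.range n).map y).reverse) x = true)
    (h2 : ∀ x ∉ L, ∀ h, verd h x = false) :
    (sv n verd).Decides Set.univ L 1 0 := by
  constructor
  · intro x hx
    obtain ⟨y, hy⟩ := h1 x hx
    refine ⟨fun m => y (m.length - 1), Set.mem_univ _, ?_⟩
    rw [sv_acc, if_pos]
    change verd ((sv n verd).run (fun m => y (m.length - 1)) () x n).2 x = true
    rw [(sv_run n verd y x n).2]
    exact hy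
  · intro x hx P _
    rw [sv_acc, if_neg]
    change ¬ verd _ x = true
    rw [h2 x hx]
    exact Bool.false_ne_true

theorem upper_sat (k v : ℕ) : ∃ V : Verifier (AC0IP.Clause k v), V.len = v ∧
    MonotoneSmall V 1 ∧ V.Decides Set.univ {z | (fun cl => !z cl) ∈ SAT k v} 1 0 := by
  classical
  set verd : List Bool → BF (AC0IP.Clause k v) := fun h z =>
    decide (∀ cl : AC0IP.Clause k v, (∀ j, wd h (cl j).1 ≠ (cl j).2) → z cl = true) with hverd
  refine ⟨sv v verd, rfl, ?_, ?_⟩
  · intro ω h
    refine ⟨fun _ _ => rfl, ?_⟩
    refine computed_and {f | ∃ cl : AC0IP.Clause k v, (∀ j, wd h (cl j).1 ≠ (cl j).2) ∧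
      f = fun z => z cl} ?_ ?_
    · rintro f ⟨cl, -, rfl⟩
      exact Or.inr ⟨cl, fun x => rfl⟩
    · intro z
      change decide _ = true ↔ _
      rw [decide_eq_true_iff]
      constructor
      · rintro h1 f ⟨cl, hcl, rfl⟩
        exact h1 cl hcl
      · intro h1 cl hcl
        exact h1 _ ⟨cl, hcl, rfl⟩
  · refine sv_decides v verd _ ?_ ?_
    · rintro z ⟨y, hy⟩
      refine ⟨fun n => if hn : n < v then y ⟨n, hn⟩ else false, ?_⟩
      rw [hverd]
      simp only [decide_eq_true_iff]
      intro cl hcl
      by_contra hne
      have h1 : (!z cl) = true := by simpa using hne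
      obtain ⟨j, hj⟩ := hy cl h1
      refine hcl j ?_
      rw [wd_run, dif_pos (cl j).1.2]
      exact hj
    · intro z hz h
      rw [hverd]
      simp only [decide_eq_false_iff_not]
      intro h1
      refine hz ⟨wd h, fun cl hcl => ?_⟩
      by_contra h2
      push Not at h2
      have h3 := h1 cl h2
      simp only [h3] at hcl
      exact absurd hcl (by decide)

theorem upper_all (ι : Type) [Fintype ι] (L : Set (ι → Bool))
    (hL : ∀ x ∈ L, ∀ y : ι → Bool, (∀ i, x i = true → y i = true) → y ∈ L) :
    ∃ V : Verifier ι, V.len = Fintype.card ι ∧ MonotoneSmall V 1 ∧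
      V.Decides Set.univ L 1 0 := by
  classical
  set e := Fintype.equivFin ι with he
  set verd : List Bool → BF ι := fun h x =>
    decide ((fun i => wd h (e i)) ∈ L ∧ ∀ i, wd h (e i) = true → x i = true) with hverd
  refine ⟨sv (Fintype.card ι) verd, rfl, ?_, ?_⟩
  · intro ω h
    refine ⟨fun _ _ => rfl, ?_⟩
    by_cases hL' : (fun i => wd h (e i)) ∈ L
    · refine computed_and {f | ∃ i : ι, wd h (e i) = true ∧ f = fun x => x i} ?_ ?_
      · rintro f ⟨i, -, rfl⟩
        exact Or.inr ⟨i, fun x => rfl⟩
      · intro x
        change decide _ = true ↔ _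
        rw [decide_eq_true_iff]
        constructor
        · rintro ⟨-, h1⟩ f ⟨i, hi, rfl⟩
          exact h1 i hi
        · intro h1
          exact ⟨hL', fun i hi => h1 _ ⟨i, hi, rfl⟩⟩
    · refine computed_bit (Or.inl ⟨false, fun x => ?_⟩)
      change decide _ = false
      rw [decide_eq_false_iff_not]
      exact fun h1 => hL' h1.1
  · refine sv_decides _ verd _ ?_ ?_
    · intro x hx
      refine ⟨fun k => if hk : k < Fintype.card ι then x (e.symm ⟨k, hk⟩) else false, ?_⟩
      rw [hverd]
      simp only [decide_eq_true_iff]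
      have h1 : ∀ i, wd (((List.range (Fintype.card ι)).map
          (fun k => if hk : k < Fintype.card ι then x (e.symm ⟨k, hk⟩) else false)).reverse)
          (e i) = x i := by
        intro i
        rw [wd_run, dif_pos (e i).2]
        simp
      refine ⟨?_, fun i hi => ?_⟩
      · have h2 := funext h1
        rw [h2]
        exact hx
      · rw [h1] at hi
        exact hi
    · intro x hx h
      rw [hverd]
      simp only [decide_eq_false_iff_not]
      rintro ⟨h1, h2⟩
      exact hx (hL _ h1 x h2)

end Pool.Agent.MonoIP
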